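import Pool.Agent.H42.ML.Redund

set_option autoImplicit false

/-!
# Lifting the representations to the line
-/

namespace Pool.Agent.H42.ML

open Pool.Agent.H42.LO Filter Topology
open scoped Matrix.Norms.Operator commutatorElement

theorem quo_close {M : Mat} {η : ℝ} (h00 : |M 0 0 - 1| ≤ η) (h01 : |M 0 1| ≤ η)
    (h10 : |M 1 0| ≤ η) (h11 : |M 1 1 - 1| ≤ η) (t : ℝ) : ‖quo M t - 1‖ ≤ 8 * η := by
  have hη : 0 ≤ η := (abs_nonneg _).trans h01
  have hc := Real.sin_sq_add_cos_sq t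
  have hc1 : |Real.cos t ^ 2| ≤ 1 := by
    rw [abs_of_nonneg (sq_nonneg _)]; nlinarith [sq_nonneg (Real.sin t)]
  have hs1 : |Real.sin t ^ 2| ≤ 1 := by
    rw [abs_of_nonneg (sq_nonneg _)]; nlinarith [sq_nonneg (Real.cos t)]
  have hcs : |Real.cos t * Real.sin t| ≤ 1 := by
    rw [abs_mul]
    exact mul_le_one₀ (Real.abs_cos_le_one t) (abs_nonneg _) (Real.abs_sin_le_one t)
  have aux : ∀ x y : ℝ, |x| ≤ η → |y| ≤ 1 → |x * y| ≤ η := by
    intro x y hx hy
    rw [abs_mul]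
    calc |x| * |y| ≤ η * 1 := mul_le_mul hx hy (abs_nonneg _) hη
      _ = η := mul_one η
  have hre : |(quo M t).re - 1| ≤ 4 * η := by
    have e : (quo M t).re - 1 = (M 0 0 - 1) * Real.cos t ^ 2 +
        M 0 1 * (Real.cos t * Real.sin t) + M 1 0 * (Real.cos t * Real.sin t) +
        (M 1 1 - 1) * Real.sin t ^ 2 := by
      simp only [quo]; linear_combination hc
    rw [e]
    have h1 := aux _ _ h00 hc1
    have h2 := aux _ _ h01 hcs
    have h3 := aux _ _ h10 hcs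
    have h4 := aux _ _ h11 hs1
    rw [abs_le] at h1 h2 h3 h4 ⊢
    constructor <;> linarith [h1.1, h1.2, h2.1, h2.2, h3.1, h3.2, h4.1, h4.2]
  have him : |(quo M t).im| ≤ 4 * η := by
    have e : (quo M t).im = M 1 0 * Real.cos t ^ 2 +
        (M 1 1 - 1) * (Real.cos t * Real.sin t) - (M 0 0 - 1) * (Real.cos t * Real.sin t) -
        M 0 1 * Real.sin t ^ 2 := by
      simp only [quo]; ring
    rw [e]
    have h1 := aux _ _ h10 hc1
    have h2 := aux _ _ h11 hcs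
    have h3 := aux _ _ h00 hcs
    have h4 := aux _ _ h01 hs1
    rw [abs_le] at h1 h2 h3 h4 ⊢
    constructor <;> linarith [h1.1, h1.2, h2.1, h2.2, h3.1, h3.2, h4.1, h4.2]
  have h1 := Complex.norm_le_abs_re_add_abs_im (quo M t - 1)
  have h2 : (quo M t - 1).re = (quo M t).re - 1 := by simp
  have h3 : (quo M t - 1).im = (quo M t).im := by simp
  rw [h2, h3] at h1
  linarith

theorem disp_small {δ : ℝ} (hδ : 0 < δ) : ∀ᶠ M in 𝓝 (1 : Mat),
    (∀ t, |canFun M t - t| < δ) ∧ -2 < M 0 0 + M 1 1 := by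
  have h1 : ContinuousAt Complex.arg 1 := Complex.continuousAt_arg (by simp)
  have h2 := Metric.continuousAt_iff.1 h1 δ hδ
  obtain ⟨η, hη, h3⟩ := h2
  have e : ∀ i j : Fin 2, ∀ᶠ M in 𝓝 (1 : Mat), |M i j - (1 : Mat) i j| ≤ min (η / 9) (1 / 2) := by
    intro i j
    have h4 := ((entry_cont i j).tendsto (1 : Mat)).sub_const ((1 : Mat) i j)
    rw [sub_self] at h4
    have h5 := h4.abs
    rw [abs_zero] at h5
    exact (h5.eventually_lt_const (lt_min (by linarith) (by norm_num))).mono fun _ h => h.le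
  filter_upwards [e 0 0, e 0 1, e 1 0, e 1 1] with M m00 m01 m10 m11
  simp only [Matrix.one_apply_eq, ne_eq, zero_ne_one, not_false_eq_true, Matrix.one_apply_ne,
    one_ne_zero, sub_zero] at m00 m01 m10 m11
  refine ⟨fun t => ?_, ?_⟩
  · have h4 := quo_close (m00.trans (min_le_left _ _)) (m01.trans (min_le_left _ _))
      (m10.trans (min_le_left _ _)) (m11.trans (min_le_left _ _)) t
    have h5 : dist (quo M t) 1 < η := by
      rw [dist_eq_norm]; linarith
    have h6 := h3 h5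
    rw [Real.dist_eq, Complex.arg_one, sub_zero] at h6
    rw [canFun, add_sub_cancel_left]
    exact h6
  · have h4 := (abs_le.1 (m00.trans (min_le_right _ _))).1
    have h5 := (abs_le.1 (m11.trans (min_le_right _ _))).1
    linarith

/-- Words in order automorphisms with small displacement have small displacement. -/
theorem word_disp {n : ℕ} (v : FreeGroup (Fin n)) : ∃ L : ℕ, ∀ (δ : ℝ) (g : Fin n → (ℝ ≃o ℝ)),
    (∀ k t, |g k t - t| ≤ δ) → ∀ t, |FreeGroup.lift g v t - t| ≤ L * δ := by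
  induction v using FreeGroup.induction_on with
  | C1 => exact ⟨0, fun δ g _ t => by simp⟩
  | of k =>
    refine ⟨1, fun δ g h t => ?_⟩
    show |FreeGroup.lift g (FreeGroup.of k) t - t| ≤ _
    simpa using h k t
  | inv_of k ih =>
    refine ⟨1, fun δ g h t => ?_⟩
    show |FreeGroup.lift g (FreeGroup.of k)⁻¹ t - t| ≤ _
    rw [map_inv, FreeGroup.lift_apply_of]
    have h1 := h k ((g k)⁻¹ t)
    have h2 : g k ((g k)⁻¹ t) = t := (g k).apply_symm_apply t
    rw [h2, abs_sub_comm] at h1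
    simpa using h1
  | mul v w hv hw =>
    obtain ⟨L, hL⟩ := hv
    obtain ⟨L', hL'⟩ := hw
    refine ⟨L + L', fun δ g h t => ?_⟩
    rw [map_mul]
    show |FreeGroup.lift g v (FreeGroup.lift g w t) - t| ≤ _
    have h1 := hL δ g h (FreeGroup.lift g w t)
    have h2 := hL' δ g h t
    push_cast
    rw [abs_le] at h1 h2 ⊢
    constructor <;> linarith [h1.1, h1.2, h2.1, h2.2]

variable {n : ℕ} (B : Braid n) {base : Fin 3 → Fin n} (hb : B.IsBase base)
variable {ρ d : Fin 3 → ℝ}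

theorem word_isLift {a : Par n} {g : Fin n → (ℝ ≃o ℝ)}
    (hg : ∀ k, IsLift (ψ B hb a (FreeGroup.of k)) (g k)) (v : FreeGroup (Fin n)) :
    IsLift (ψ B hb a v) (FreeGroup.lift g v) := by
  induction v using FreeGroup.induction_on with
  | C1 => rw [map_one, map_one]; exact IsLift.one
  | of k =>
    have := hg k
    show IsLift (ψ B hb a (FreeGroup.of k)) (FreeGroup.lift g (FreeGroup.of k))
    rwa [FreeGroup.lift_apply_of]
  | inv_of k ih =>
    show IsLift (ψ B hb a (FreeGroup.of k)⁻¹) (FreeGroup.lift g (FreeGroup.of k)⁻¹)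
    have e : FreeGroup.lift g (FreeGroup.of k)⁻¹ = (g k)⁻¹ := by
      rw [map_inv, FreeGroup.lift_apply_of]
    rw [e]
    exact (hg k).inv (ψ_inv' B hb a _)
  | mul v w hv hw => rw [map_mul, map_mul]; exact hv.mul hw

theorem add_zpow {G : ℝ → (ℝ ≃o ℝ)} (hG : ∀ σ τ, G (σ + τ) = G σ * G τ) (τ : ℝ) (m : ℤ) :
    G τ ^ m = G (m * τ) := by
  have h0 : G 0 = 1 := by
    have := hG 0 0
    rw [add_zero] at this
    exact left_eq_mul.1 this
  have hneg : ∀ σ, G (-σ) = (G σ)⁻¹ := by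
    intro σ
    rw [eq_inv_iff_mul_eq_one, ← hG, neg_add_cancel, h0]
  induction m using Int.induction_on with
  | zero => simp [h0]
  | succ k ih => rw [zpow_add_one, ih, ← hG]; congr 1; push_cast; ring
  | pred k ih => rw [zpow_sub_one, ih, ← hneg, ← hG]; congr 1; push_cast; ring

/-- Close to the base point a solution gives a homomorphism to the group of order automorphisms
of the line. -/
theorem hom_ev {μ : ℤ} (hμ : B.HasTripleLinking base μ) (hd : ∀ c, d c ≠ 0) :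
    ∀ᶠ a in 𝓝 (pt n ρ d), a.1 ≠ 0 → Fm B hb hd ρ a = 0 → ∀ p q : Fin 3 → ℤ,
      (∀ c, (p c : ℝ) = q c * (a.1 * a.2.1 c)) →
      ∃ f : B.SurgeryGroup base p q →* (ℝ ≃o ℝ), ∃ x, f x ≠ 1 := by
  classical
  obtain ⟨Lr, hLr⟩ : ∃ L : Fin n → ℕ, ∀ k, ∀ (δ : ℝ) (g : Fin n → (ℝ ≃o ℝ)),
      (∀ k t, |g k t - t| ≤ δ) → ∀ t, |FreeGroup.lift g
        (B.u k * FreeGroup.of (B.s k) * (B.u k)⁻¹ * (FreeGroup.of k)⁻¹) t - t| ≤ L k * δ :=
    ⟨fun k => (word_disp _).choose, fun k => (word_disp _).choose_spec⟩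
  obtain ⟨Ll, hLl⟩ : ∃ L : Fin 3 → ℕ, ∀ c, ∀ (δ : ℝ) (g : Fin n → (ℝ ≃o ℝ)),
      (∀ k t, |g k t - t| ≤ δ) → ∀ t, |FreeGroup.lift g (B.longitude (base c)) t - t| ≤ L c * δ :=
    ⟨fun c => (word_disp _).choose, fun c => (word_disp _).choose_spec⟩
  obtain ⟨N, hN⟩ : ∃ N : ℕ, N = ∑ k, Lr k + ∑ c, Ll c + 1 := ⟨_, rfl⟩
  have hN0 : (0 : ℝ) < N := by rw [hN]; positivity
  have hLrN : ∀ k, (Lr k : ℝ) ≤ N := by
    intro k
    have h1 : Lr k ≤ ∑ k, Lr k := Finset.single_le_sum (fun _ _ => Nat.zero_le _) (Finset.mem_univ k)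
    exact_mod_cast (by omega : Lr k ≤ N)
  have hLlN : ∀ c, (Ll c : ℝ) ≤ N := by
    intro c
    have h1 : Ll c ≤ ∑ c, Ll c := Finset.single_le_sum (fun _ _ => Nat.zero_le _) (Finset.mem_univ c)
    exact_mod_cast (by omega : Ll c ≤ N)
  have hpi := Real.pi_pos
  obtain ⟨δ, hδ⟩ : ∃ δ : ℝ, δ = Real.pi / (2 * N) := ⟨_, rfl⟩
  have hδ0 : 0 < δ := by rw [hδ]; positivity
  have hNδ : N * δ = Real.pi / 2 := by rw [hδ]; field_simp
  have hsmall : ∀ᶠ a in 𝓝 (pt n ρ d), ∀ k, (∀ t, |canFun (ψ B hb a (FreeGroup.of k)) t - t| < δ) ∧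
      -2 < (ψ B hb a (FreeGroup.of k)) 0 0 + (ψ B hb a (FreeGroup.of k)) 1 1 :=
    eventually_all.2 fun k => (ψ_tendsto (ρ := ρ) B hb hd (FreeGroup.of k)).eventually
      (disp_small hδ0)
  have hlen : ∀ c, ContDiffAt ℝ 1 (fun a : Par n => len (ty c) (a.2.2.1 c)) (pt n ρ d) := by
    intro c
    have hi : ∀ i, ContDiffAt ℝ 1 (fun a : Par n => a.2.2.1 c i) (pt n ρ d) :=
      fun i => contDiffAt_pi.1 (y_cont c) i
    have hn : ContDiffAt ℝ 1 (fun a : Par n => kap (ty c) * nrm (a.2.2.1 c)) (pt n ρ d) :=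
      contDiffAt_const.mul ((((hi 0).pow 2).add ((hi 1).pow 2)).sub ((hi 2).pow 2))
    exact hn.sqrt (pos₀ hd c).ne'
  have hs1 : ∀ᶠ a in 𝓝 (pt n ρ d), ∀ c, |a.1 * len (ty c) (a.2.2.1 c)| < Real.pi := by
    refine eventually_all.2 fun c => ?_
    have h1 : ContDiffAt ℝ 1 (fun a : Par n => a.1 * len (ty c) (a.2.2.1 c)) (pt n ρ d) :=
      eps_cont.mul (hlen c)
    have h2 := h1.continuousAt.tendsto.abs
    refine h2.eventually_lt_const ?_
    simpa [pt] using hpi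
  have hs2 : ∀ᶠ a in 𝓝 (pt n ρ d), ∀ c,
      |(-(a.1 ^ 2 * a.2.1 c)) * len (ty c) (a.2.2.1 c)| < Real.pi := by
    refine eventually_all.2 fun c => ?_
    have h1 : ContDiffAt ℝ 1 (fun a : Par n => (-(a.1 ^ 2 * a.2.1 c)) * len (ty c) (a.2.2.1 c))
        (pt n ρ d) :=
      (((eps_cont.pow 2).mul (rho_cont c)).neg).mul (hlen c)
    have h2 := h1.continuousAt.tendsto.abs
    refine h2.eventually_lt_const ?_
    simpa [pt] using hpi
  filter_upwards [good_ev (ρ := ρ) B hb hμ hd, hsmall, hs1, hs2] with a h1 h2 h3 h4 ha0 hF p q hpq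
  have hG := h1 ha0 hF
  have hdet : ∀ v, (ψ B hb a v) 0 0 * (ψ B hb a v) 1 1 - (ψ B hb a v) 0 1 * (ψ B hb a v) 1 0 = 1 := by
    intro v
    rw [← Matrix.det_fin_two]; exact hG.det v
  set g : Fin n → (ℝ ≃o ℝ) := fun k => can (ψ B hb a (FreeGroup.of k)) (hdet _) (h2 k).2 with hg
  have hgl : ∀ k, IsLift (ψ B hb a (FreeGroup.of k)) (g k) := fun k => can_isLift _ _ _
  have hgd : ∀ k t, |g k t - t| ≤ δ := fun k t => ((h2 k).1 t).le
  have hrelL : ∀ k, FreeGroup.lift g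
      (B.u k * FreeGroup.of (B.s k) * (B.u k)⁻¹ * (FreeGroup.of k)⁻¹) = 1 := by
    intro k
    have e1 := word_isLift B hb hgl (B.u k * FreeGroup.of (B.s k) * (B.u k)⁻¹ * (FreeGroup.of k)⁻¹)
    have e2 : ψ B hb a (B.u k * FreeGroup.of (B.s k) * (B.u k)⁻¹ * (FreeGroup.of k)⁻¹) = 1 :=
      congrArg Units.val (hG.rel k)
    rw [e2] at e1
    refine e1.eq_one (t₀ := 0) ?_
    have e3 := hLr k δ g hgd 0
    have e4 : (Lr k : ℝ) * δ ≤ N * δ := mul_le_mul_of_nonneg_right (hLrN k) hδ0.le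
    linarith
  have hlong : ∀ c, FreeGroup.lift g (FreeGroup.of (base c)) ^ p c *
      FreeGroup.lift g (B.longitude (base c)) ^ q c = 1 := by
    intro c
    obtain ⟨G', G1, G2, G3⟩ := one_param (hG.pos c)
    have e1 : FreeGroup.lift g (FreeGroup.of (base c)) = G' a.1 := by
      have k1 := word_isLift B hb hgl (FreeGroup.of (base c))
      have k2 := G2 a.1
      rw [hG.gen c] at k1
      have k3 := hgd (base c) 0
      have k4 := G3 a.1 (h3 c).le 0
      have k5 : δ ≤ Real.pi / 2 := by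
        have : (1 : ℝ) ≤ N := by
          have : 1 ≤ N := by omega
          exact_mod_cast this
        nlinarith
      refine IsLift.ext k1 k2 (adj_mul (ex_det (hG.pos c) _)) (t₀ := 0) ?_
      rw [FreeGroup.lift_apply_of]
      rw [abs_le] at k3 k4
      rw [abs_lt]
      constructor <;> linarith [k3.1, k3.2, k4.1, k4.2]
    have e2 : FreeGroup.lift g (B.longitude (base c)) = G' (-(a.1 ^ 2 * a.2.1 c)) := by
      have k1 := word_isLift B hb hgl (B.longitude (base c))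
      have k2 := G2 (-(a.1 ^ 2 * a.2.1 c))
      rw [hG.long c] at k1
      have k3 := hLl c δ g hgd 0
      have k4 := G3 (-(a.1 ^ 2 * a.2.1 c)) (h4 c).le 0
      have k5 : (Ll c : ℝ) * δ ≤ N * δ := mul_le_mul_of_nonneg_right (hLlN c) hδ0.le
      refine IsLift.ext k1 k2 (adj_mul (ex_det (hG.pos c) _)) (t₀ := 0) ?_
      rw [abs_le] at k3 k4
      rw [abs_lt]
      constructor <;> linarith [k3.1, k3.2, k4.1, k4.2]
    rw [e1, e2, add_zpow G1, add_zpow G1, ← G1, hpq c]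
    have e3 : (q c : ℝ) * (a.1 * a.2.1 c) * a.1 + (q c : ℝ) * -(a.1 ^ 2 * a.2.1 c) = 0 := by ring
    rw [e3]
    have := G1 0 0
    rw [add_zero] at this
    exact left_eq_mul.1 this
  have hrel : ∀ r ∈ B.surgeryRels base p q, FreeGroup.lift g r = 1 := by
    rintro r (⟨k, rfl⟩ | ⟨c, rfl⟩)
    · exact hrelL k
    · rw [map_mul, map_zpow, map_zpow]; exact hlong c
  refine ⟨PresentedGroup.toGroup hrel, PresentedGroup.of (base 0), ?_⟩
  rw [PresentedGroup.toGroup.of]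
  intro hone
  -- the meridian is nontrivial
  have k1 := hgl (base 0)
  rw [hone, hG.gen 0] at k1
  obtain ⟨r, hr, e1, e2⟩ := k1.dir 0
  obtain ⟨r', hr', e3, e4⟩ := k1.dir (Real.pi / 2)
  have hone' : ∀ t, (1 : ℝ ≃o ℝ) t = t := fun t => rfl
  rw [hone'] at e1 e2 e3 e4
  simp only [Real.cos_zero, Real.sin_zero, Real.cos_pi_div_two, Real.sin_pi_div_two, mul_one,
    mul_zero, add_zero, zero_add] at e1 e2 e3 e4
  have hp0 := hG.pos 0
  have hl0 := len_pos hp0
  have hty : ty 0 = true := rfl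
  -- off-diagonal entries vanish and the determinant is one
  obtain ⟨S, hS⟩ : ∃ S : ℝ, S = sn (ty 0) (a.1 * len (ty 0) (a.2.2.1 0)) /
    len (ty 0) (a.2.2.1 0) := ⟨_, rfl⟩
  have hS0 : S ≠ 0 := by
    rw [hS]
    apply div_ne_zero _ hl0.ne'
    rw [hty]
    simp only [sn, if_true]
    intro h0
    rw [Real.sinh_eq_zero] at h0
    rw [hty] at hl0
    exact (mul_ne_zero ha0 hl0.ne') h0
  rw [ex_10, ← hS] at e2
  rw [ex_01, ← hS] at e3
  have m1 : a.2.2.1 0 1 + a.2.2.1 0 2 = 0 := (mul_eq_zero.1 e2).resolve_left hS0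
  have m2 : a.2.2.1 0 1 - a.2.2.1 0 2 = 0 := (mul_eq_zero.1 e3).resolve_left hS0
  obtain ⟨r'', hr'', e5, e6⟩ := k1.dir (Real.pi / 4)
  rw [hone'] at e5 e6
  rw [ex_00, ex_01, ← hS, m2] at e5
  rw [ex_10, ex_11, ← hS, m1] at e6
  rw [Real.cos_pi_div_four, Real.sin_pi_div_four] at e5 e6
  have hsq : (0 : ℝ) < Real.sqrt 2 / 2 := by positivity
  have e7 : S * a.2.2.1 0 0 * (Real.sqrt 2 / 2) = 0 := by linarith
  have m3 : a.2.2.1 0 0 = 0 := by
    rcases mul_eq_zero.1 e7 with h | h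
    · exact (mul_eq_zero.1 h).resolve_left hS0
    · linarith
  have m4 : a.2.2.1 0 1 = 0 := by linarith
  have m5 : a.2.2.1 0 2 = 0 := by linarith
  rw [nrm, m3, m4, m5] at hp0
  simp at hp0

end Pool.Agent.H42.ML
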