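import Mathlib

set_option autoImplicit false

/-!
# Closed braids and their longitudes
-/

namespace Pool.Agent.H42.ML

/-- A braid on `n` strands, as an endomorphism of the free group on `x k` (`k : Fin n`) that takes
`x k` to the conjugate `u k * x (s k) * (u k)⁻¹` of a generator and fixes the product of the
generators.  (By a theorem of Artin these endomorphisms are the automorphisms given by braids.) -/
structure Braid (n : ℕ) where
  s : Equiv.Perm (Fin n)
  u : Fin n → FreeGroup (Fin n)
  prod_eq : (List.ofFn fun k => u k * FreeGroup.of (s k) * (u k)⁻¹).prod =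
    (List.ofFn fun k => (FreeGroup.of k : FreeGroup (Fin n))).prod

variable {n : ℕ}

/-- The parallel of the closed braid that starts at the strand `k` and goes around `i` times. -/
def Braid.par (B : Braid n) (k : Fin n) : ℕ → FreeGroup (Fin n)
  | 0 => 1
  | i + 1 => B.par k i * B.u ((B.s ^ i) k)

/-- The sum of the exponents of the generators that belong to the component of the strand `k`. -/
noncomputable def Braid.own (B : Braid n) (k : Fin n) : FreeGroup (Fin n) →* Multiplicative ℤ :=
  haveI : DecidablePred (fun j => B.s.SameCycle k j) := Classical.decPred _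
  FreeGroup.lift fun j => if B.s.SameCycle k j then Multiplicative.ofAdd 1 else 1

/-- The preferred longitude of the component of the strand `k` of the closure: the parallel that
goes around until it returns to the strand `k`, corrected by a power of the meridian `x k` such
that it has linking number zero with the component. -/
noncomputable def Braid.longitude (B : Braid n) (k : Fin n) : FreeGroup (Fin n) :=
  B.par k (Function.minimalPeriod B.s k) *
    FreeGroup.of k ^ (-(B.own k (B.par k (Function.minimalPeriod B.s k))).toAdd)

/-- The components of the closure are indexed by `0, 1, 2`, and `base c` is a strand of the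
component `c`. -/
def Braid.IsBase (B : Braid n) (base : Fin 3 → Fin n) : Prop :=
  ∀ k, ∃! c, B.s.SameCycle (base c) k

/-- The relators of the group of the closure: `x k = u k * x (s k) * (u k)⁻¹`. -/
def Braid.linkRels (B : Braid n) : Set (FreeGroup (Fin n)) :=
  {w | ∃ k, w = B.u k * FreeGroup.of (B.s k) * (B.u k)⁻¹ * (FreeGroup.of k)⁻¹}

/-- The fundamental group of the complement of the closure. -/
abbrev Braid.LinkGroup (B : Braid n) : Type := PresentedGroup B.linkRels

/-- The class of a word in the link group. -/
def Braid.cls (B : Braid n) (w : FreeGroup (Fin n)) : B.LinkGroup :=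
  PresentedGroup.mk B.linkRels w

open scoped commutatorElement in
/-- The three components have linking number zero with each other, and the triple linking number
is `μ`: the longitude of the component `c` is congruent to the `μ`-th power of the commutator of
the meridians of the components `c + 1` and `c + 2`, modulo the third term of the lower central
series. -/
def Braid.HasTripleLinking (B : Braid n) (base : Fin 3 → Fin n) (μ : ℤ) : Prop :=
  ∀ c, B.cls (B.longitude (base c)) *
    ⁅B.cls (FreeGroup.of (base (c + 1))), B.cls (FreeGroup.of (base (c + 2)))⁆ ^ (-μ) ∈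
      ⁅commutator B.LinkGroup, (⊤ : Subgroup B.LinkGroup)⁆

/-- The relators of the fundamental group of the surgery with slopes `p c / q c`. -/
def Braid.surgeryRels (B : Braid n) (base : Fin 3 → Fin n) (p q : Fin 3 → ℤ) :
    Set (FreeGroup (Fin n)) :=
  B.linkRels ∪ {w | ∃ c, w = FreeGroup.of (base c) ^ p c * B.longitude (base c) ^ q c}

/-- The fundamental group of the closed manifold obtained by surgery on the closure with slope
`p c / q c` on the component `c`. -/
abbrev Braid.SurgeryGroup (B : Braid n) (base : Fin 3 → Fin n) (p q : Fin 3 → ℤ) : Type :=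
  PresentedGroup (B.surgeryRels base p q)

namespace Braid

variable (B : Braid n) {base : Fin 3 → Fin n} (hb : B.IsBase base)

/-- The component of a strand. -/
noncomputable def comp (k : Fin n) : Fin 3 := (hb k).choose

theorem comp_spec (k : Fin n) : B.s.SameCycle (base (B.comp hb k)) k := (hb k).choose_spec.1

theorem comp_unique {k : Fin n} {c : Fin 3} (h : B.s.SameCycle (base c) k) :
    c = B.comp hb k := (hb k).choose_spec.2 c h

theorem comp_base (c : Fin 3) : B.comp hb (base c) = c :=
  (B.comp_unique hb (Equiv.Perm.SameCycle.refl _ _)).symm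

include hb in
theorem base_injective : Function.Injective base := by
  intro c d h
  rw [← B.comp_base hb c, ← B.comp_base hb d, h]

theorem comp_s (k : Fin n) : B.comp hb (B.s k) = B.comp hb k := by
  symm
  apply B.comp_unique hb
  exact Equiv.Perm.sameCycle_apply_right.2 (B.comp_spec hb k)

theorem exists_idx (k : Fin n) : ∃ i : ℕ, (B.s ^ i) (base (B.comp hb k)) = k := by
  obtain ⟨i, _, hi⟩ := (B.comp_spec hb k).exists_pow_eq'
  exact ⟨i, hi⟩

open Classical in
/-- The number of rounds to reach the strand `k` from the base strand of its component. -/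
noncomputable def idx (k : Fin n) : ℕ := Nat.find (B.exists_idx hb k)

open Classical in
theorem idx_spec (k : Fin n) : (B.s ^ (B.idx hb k)) (base (B.comp hb k)) = k :=
  Nat.find_spec (B.exists_idx hb k)

open Classical in
theorem idx_le {k : Fin n} {i : ℕ} (h : (B.s ^ i) (base (B.comp hb k)) = k) :
    B.idx hb k ≤ i := Nat.find_min' (B.exists_idx hb k) h

theorem idx_base (c : Fin 3) : B.idx hb (base c) = 0 := by
  have : B.idx hb (base c) ≤ 0 := B.idx_le hb (by rw [comp_base]; rfl)
  omega

theorem idx_s {k : Fin n} (h : ∀ c, B.s k ≠ base c) : B.idx hb (B.s k) = B.idx hb k + 1 := by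
  apply le_antisymm
  · apply B.idx_le hb
    rw [B.comp_s hb, pow_succ', Equiv.Perm.mul_apply, B.idx_spec hb]
  · by_contra hcon
    push Not at hcon
    have h1 := B.idx_spec hb (B.s k)
    rcases Nat.eq_zero_or_pos (B.idx hb (B.s k)) with h0 | h0
    · rw [h0] at h1
      exact h _ h1.symm
    · obtain ⟨j, hj⟩ : ∃ j, B.idx hb (B.s k) = j + 1 := ⟨B.idx hb (B.s k) - 1, by omega⟩
      rw [hj, B.comp_s hb, pow_succ', Equiv.Perm.mul_apply] at h1
      have h2 := B.idx_le hb (B.s.injective h1)
      omega

theorem minimalPeriod_eq {k : Fin n} {c : Fin 3} (h : B.s k = base c) :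
    Function.minimalPeriod B.s (base c) = B.idx hb k + 1 := by
  have hc : B.comp hb k = c := by
    rw [← B.comp_s hb, h, B.comp_base hb]
  have h1 := B.idx_spec hb k
  rw [hc] at h1
  have hper : Function.IsPeriodicPt B.s (B.idx hb k + 1) (base c) := by
    show (B.s)^[B.idx hb k + 1] (base c) = base c
    rw [← Equiv.Perm.coe_pow, pow_succ', Equiv.Perm.mul_apply, h1, h]
  apply le_antisymm
  · exact hper.minimalPeriod_le (Nat.succ_pos _)
  · by_contra hcon
    push Not at hcon
    set m := Function.minimalPeriod B.s (base c) with hm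
    have hm0 : 0 < m := hper.minimalPeriod_pos (Nat.succ_pos _)
    have hm1 : (B.s ^ m) (base c) = base c := by
      rw [Equiv.Perm.coe_pow]
      exact Function.isPeriodicPt_minimalPeriod _ _
    obtain ⟨j, hj⟩ : ∃ j, B.idx hb k = j + m := ⟨B.idx hb k - m, by omega⟩
    rw [hj, pow_add, Equiv.Perm.mul_apply, hm1] at h1
    have h2 : B.idx hb k ≤ j := B.idx_le hb (by rw [hc]; exact h1)
    omega

/-- The word that conjugates the strand `k` to the base strand. -/
noncomputable def V (k : Fin n) : FreeGroup (Fin n) :=
  B.par (base (B.comp hb k)) (B.idx hb k)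

theorem V_base (c : Fin 3) : B.V hb (base c) = 1 := by
  rw [V, B.idx_base hb]; rfl

theorem V_mul_u (k : Fin n) :
    B.V hb k * B.u k = B.par (base (B.comp hb k)) (B.idx hb k + 1) := by
  rw [V, par, B.idx_spec hb]

theorem V_s {k : Fin n} (h : ∀ c, B.s k ≠ base c) : B.V hb (B.s k) = B.V hb k * B.u k := by
  rw [B.V_mul_u hb, V, B.comp_s hb, B.idx_s hb h]

theorem V_close {k : Fin n} {c : Fin 3} (h : B.s k = base c) :
    B.V hb k * B.u k = B.par (base c) (Function.minimalPeriod B.s (base c)) := by
  have hc : B.comp hb k = c := by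
    rw [← B.comp_s hb, h, B.comp_base hb]
  rw [B.V_mul_u hb, B.minimalPeriod_eq hb h, hc]

/-- The relations except the closing ones conjugate the strand `k` to the base strand. -/
theorem V_conj {H : Type*} [Group H] (φ : FreeGroup (Fin n) →* H)
    (hrel : ∀ k, (∀ c, B.s k ≠ base c) →
      φ (B.u k) * φ (FreeGroup.of (B.s k)) * (φ (B.u k))⁻¹ = φ (FreeGroup.of k)) (k : Fin n) :
    φ (B.V hb k) * φ (FreeGroup.of k) * (φ (B.V hb k))⁻¹ =
      φ (FreeGroup.of (base (B.comp hb k))) := by
  obtain ⟨i, hi⟩ : ∃ i, B.idx hb k = i := ⟨_, rfl⟩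
  induction i generalizing k with
  | zero =>
    have h1 := B.idx_spec hb k
    rw [hi] at h1
    have h2 : base (B.comp hb k) = k := h1
    have h3 : B.V hb k = 1 := by rw [← h2]; exact B.V_base hb _
    rw [h3, h2]; simp
  | succ j ih =>
    obtain ⟨k', hk'⟩ : ∃ k', B.s k' = k := ⟨B.s⁻¹ k, by simp⟩
    have hnb : ∀ c, B.s k' ≠ base c := by
      intro c hc
      rw [← hk', hc, B.idx_base hb] at hi
      omega
    have h1 := B.idx_s hb hnb
    rw [hk', hi] at h1
    have h2 := ih k' (by omega)
    have h3 := hrel k' hnb
    have h4 := B.V_s hb hnb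
    have h5 := B.comp_s hb k'
    rw [hk'] at h3 h4 h5
    rw [h4, h5, ← h2, ← h3, map_mul]
    group

include hb in
/-- The closing relation follows if the parallel commutes with the meridian. -/
theorem close_rel {H : Type*} [Group H] (φ : FreeGroup (Fin n) →* H)
    (hrel : ∀ k, (∀ c, B.s k ≠ base c) →
      φ (B.u k) * φ (FreeGroup.of (B.s k)) * (φ (B.u k))⁻¹ = φ (FreeGroup.of k))
    {k : Fin n} {c : Fin 3} (h : B.s k = base c)
    (hcomm : Commute (φ (B.longitude (base c))) (φ (FreeGroup.of (base c)))) :
    φ (B.u k) * φ (FreeGroup.of (B.s k)) * (φ (B.u k))⁻¹ = φ (FreeGroup.of k) := by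
  have hc : B.comp hb k = c := by
    rw [← B.comp_s hb, h, B.comp_base hb]
  have h1 := B.V_conj hb φ hrel k
  rw [hc] at h1
  have h2 : Commute (φ (B.par (base c) (Function.minimalPeriod B.s (base c))))
      (φ (FreeGroup.of (base c))) := by
    have h3 : φ (B.par (base c) (Function.minimalPeriod B.s (base c))) =
        φ (B.longitude (base c)) * φ (FreeGroup.of (base c)) ^
          ((B.own (base c) (B.par (base c) (Function.minimalPeriod B.s (base c)))).toAdd) := by
      rw [longitude, map_mul, map_zpow, mul_assoc, ← zpow_add, neg_add_cancel, zpow_zero, mul_one]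
    rw [h3]
    exact hcomm.mul_left ((Commute.refl _).zpow_left _)
  rw [← B.V_close hb h, map_mul] at h2
  rw [h]
  set v := φ (B.V hb k)
  set w := φ (B.u k)
  set x := φ (FreeGroup.of (base c))
  set z := φ (FreeGroup.of k)
  have h4 : v * w * x = x * (v * w) := h2.eq
  calc w * x * w⁻¹ = v⁻¹ * (v * w * x) * w⁻¹ := by group
    _ = v⁻¹ * (x * (v * w)) * w⁻¹ := by rw [h4]
    _ = v⁻¹ * (v * z * v⁻¹ * (v * w)) * w⁻¹ := by rw [h1]
    _ = z := by group

end Braid

end Pool.Agent.H42.ML
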