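import Pool.Agent.H42.ML.N2

set_option autoImplicit false
set_option linter.unusedSectionVars false

/-!
# Words in elements close to one, with differentiable second order remainder
-/

namespace Pool.Agent.H42.ML

open Filter Topology

variable {P : Type*} [NormedAddCommGroup P] [NormedSpace ℝ P]
  {A : Type*} [NormedRing A] [NormedAlgebra ℝ A] [CompleteSpace A]

/-- The element `g a` is `1 + e a • Y a + e a ^ 2 • R a`, where `Y` and `R` are continuously
differentiable, `x a` has first component `Y a`, and second component `R a` if `e a = 0`. -/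
def Exp (e : P → ℝ) (a₀ : P) (g : P → Aˣ) (x : P → N2 A) : Prop :=
  ContDiffAt ℝ 1 (fun a => (x a).a) a₀ ∧ ∃ R : P → A, ContDiffAt ℝ 1 R a₀ ∧
    (∀ᶠ a in 𝓝 a₀, (g a : A) = 1 + e a • (x a).a + e a ^ 2 • R a) ∧
    (∀ᶠ a in 𝓝 a₀, e a = 0 → R a = (x a).b)

variable {e : P → ℝ} {a₀ : P}

theorem Exp.one : Exp (A := A) e a₀ (fun _ => 1) (fun _ => 1) :=
  ⟨contDiffAt_const, fun _ => 0, contDiffAt_const, by simp, by simp⟩

theorem Exp.mul (he : ContDiffAt ℝ 1 e a₀) {g g' : P → Aˣ} {x x' : P → N2 A}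
    (h : Exp e a₀ g x) (h' : Exp e a₀ g' x') :
    Exp e a₀ (fun a => g a * g' a) (fun a => x a * x' a) := by
  obtain ⟨hY, R, hR, h1, h2⟩ := h
  obtain ⟨hY', R', hR', h1', h2'⟩ := h'
  refine ⟨hY.add hY', fun a => R a + R' a + (x a).a * (x' a).a +
    e a • ((x a).a * R' a + R a * (x' a).a) + e a ^ 2 • (R a * R' a), ?_, ?_, ?_⟩
  · exact (((hR.add hR').add (hY.mul hY')).add
      (he.smul ((hY.mul hR').add (hR.mul hY')))).add ((he.pow 2).smul (hR.mul hR'))
  · filter_upwards [h1, h1'] with a k1 k2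
    rw [Units.val_mul, k1, k2, N2.mul_a]
    simp only [mul_add, add_mul, mul_one, one_mul, smul_add, smul_mul_assoc, mul_smul_comm,
      smul_smul]
    ring_nf
    abel
  · filter_upwards [h2, h2'] with a k1 k2 h0
    simp only [h0, zero_smul, add_zero, ne_eq, OfNat.ofNat_ne_zero, not_false_eq_true, zero_pow]
    rw [k1 h0, k2 h0]
    rfl

theorem Exp.inv (he : ContDiffAt ℝ 1 e a₀) (he0 : e a₀ = 0) {g : P → Aˣ} {x : P → N2 A}
    (h : Exp e a₀ g x) : Exp e a₀ (fun a => (g a)⁻¹) (fun a => (x a)⁻¹) := by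
  obtain ⟨hY, R, hR, h1, h2⟩ := h
  set f : P → A := fun a => 1 + e a • (x a).a + e a ^ 2 • R a with hf
  have hfc : ContDiffAt ℝ 1 f a₀ :=
    (contDiffAt_const.add (he.smul hY)).add ((he.pow 2).smul hR)
  have hf0 : f a₀ = 1 := by simp [hf, he0]
  have hinv : ContDiffAt ℝ 1 (fun a => Ring.inverse (f a)) a₀ := by
    have h3 : ContDiffAt ℝ 1 Ring.inverse (((1 : Aˣ) : A)) := contDiffAt_ringInverse ℝ 1
    rw [Units.val_one, ← hf0] at h3
    exact h3.comp a₀ hfc
  have hinv' : ∀ᶠ a in 𝓝 a₀, Ring.inverse (f a) = (((g a)⁻¹ : Aˣ) : A) := by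
    filter_upwards [h1] with a k1
    rw [hf]
    simp only
    rw [← k1, Ring.inverse_unit]
  refine ⟨hY.neg, fun a => Ring.inverse (f a) * ((x a).a * (x a).a - R a +
    e a • (R a * (x a).a)), ?_, ?_, ?_⟩
  · exact hinv.mul (((hY.mul hY).sub hR).add (he.smul (hR.mul hY)))
  · filter_upwards [h1, hinv'] with a k1 k2
    rw [k2]
    have k3 : (g a : A) * (1 - e a • (x a).a) =
        1 - e a ^ 2 • ((x a).a * (x a).a - R a + e a • (R a * (x a).a)) := by
      rw [k1]
      simp only [mul_sub, add_mul, mul_one, one_mul, smul_add, smul_sub, smul_mul_assoc,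
        mul_smul_comm, smul_smul]
      ring_nf
      abel
    have k4 : (((g a)⁻¹ : Aˣ) : A) * ((g a : A) * (1 - e a • (x a).a)) =
        1 - e a • (x a).a := by
      rw [← mul_assoc, Units.inv_mul, one_mul]
    rw [k3, mul_sub, mul_one, mul_smul_comm] at k4
    rw [N2.inv_a, smul_neg]
    rw [sub_eq_iff_eq_add] at k4
    rw [← sub_eq_add_neg]
    exact k4
  · filter_upwards [h2, hinv', h1] with a k1 k2 k3 h0
    have k4 : (g a : A) = 1 := by rw [k3, h0]; simp
    have k5 : g a = 1 := Units.ext k4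
    simp only [k2, k5, h0, zero_smul, add_zero, inv_one, Units.val_one, one_mul]
    rw [k1 h0]
    rfl

theorem Exp.lift {n : ℕ} (he : ContDiffAt ℝ 1 e a₀) (he0 : e a₀ = 0)
    {g : Fin n → P → Aˣ} {x : Fin n → P → N2 A} (h : ∀ k, Exp e a₀ (g k) (x k))
    (v : FreeGroup (Fin n)) :
    Exp e a₀ (fun a => FreeGroup.lift (fun k => g k a) v)
      (fun a => FreeGroup.lift (fun k => x k a) v) := by
  induction v using FreeGroup.induction_on with
  | C1 => simpa using Exp.one
  | of k => simpa using h k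
  | inv_of k ih => simpa using Exp.inv he he0 ih
  | mul v w hv hw => simpa using Exp.mul he hv hw

end Pool.Agent.H42.ML
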