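import Pool.Agent.H42.LO.Hyp

set_option autoImplicit false

/-!
# Traceless matrices, one-parameter groups and their lifts
-/

namespace Pool.Agent.H42.ML

open Pool.Agent.H42.LO Real

/-- The traceless matrix with coordinates `y` (two hyperbolic directions and one elliptic
direction). -/
def Yv (y : Fin 3 → ℝ) : Mat := !![y 0, y 1 - y 2; y 1 + y 2, - y 0]

/-- The scalar square of `Yv y`. -/
def nrm (y : Fin 3 → ℝ) : ℝ := y 0 ^ 2 + y 1 ^ 2 - y 2 ^ 2

@[simp] theorem Yv_00 (y : Fin 3 → ℝ) : Yv y 0 0 = y 0 := by simp [Yv]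
@[simp] theorem Yv_01 (y : Fin 3 → ℝ) : Yv y 0 1 = y 1 - y 2 := by simp [Yv]
@[simp] theorem Yv_10 (y : Fin 3 → ℝ) : Yv y 1 0 = y 1 + y 2 := by simp [Yv]
@[simp] theorem Yv_11 (y : Fin 3 → ℝ) : Yv y 1 1 = - y 0 := by simp [Yv]

/-- The coordinates of the traceless part. -/
noncomputable def coord (M : Mat) : Fin 3 → ℝ :=
  ![(M 0 0 - M 1 1) / 2, (M 0 1 + M 1 0) / 2, (M 1 0 - M 0 1) / 2]

theorem decomp (M : Mat) : M = ((M 0 0 + M 1 1) / 2) • (1 : Mat) + Yv (coord M) := by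
  apply mat_ext <;> simp [coord] <;> ring

theorem coord_Yv (y : Fin 3 → ℝ) : coord (Yv y) = y := by
  ext i
  fin_cases i <;> simp [coord]

theorem Yv_mul_Yv (y : Fin 3 → ℝ) : Yv y * Yv y = nrm y • (1 : Mat) := by
  apply mat_ext <;> simp [Matrix.mul_apply, Fin.sum_univ_two, nrm] <;> ring

theorem Yv_bracket (y z : Fin 3 → ℝ) : Yv y * Yv z - Yv z * Yv y =
    Yv ![2 * (y 1 * z 2 - y 2 * z 1), 2 * (y 2 * z 0 - y 0 * z 2),
      - 2 * (y 0 * z 1 - y 1 * z 0)] := by
  apply mat_ext <;> simp [Matrix.mul_apply, Fin.sum_univ_two] <;> ring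

/-- The sign of a type: `1` for hyperbolic, `-1` for elliptic. -/
def kap (h : Bool) : ℝ := if h then 1 else -1

/-- `cosh` or `cos`. -/
noncomputable def cs (h : Bool) (z : ℝ) : ℝ := if h then cosh z else cos z

/-- `sinh` or `sin`. -/
noncomputable def sn (h : Bool) (z : ℝ) : ℝ := if h then sinh z else sin z

theorem cs_sq (h : Bool) (z : ℝ) : cs h z ^ 2 = 1 + kap h * sn h z ^ 2 := by
  cases h
  · simp only [cs, sn, kap, Bool.false_eq_true, if_false]
    linarith [Real.sin_sq_add_cos_sq z]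
  · simp only [cs, sn, kap, if_true]
    linarith [Real.cosh_sq z]

theorem kap_sq (h : Bool) : kap h * kap h = 1 := by cases h <;> simp [kap]

/-- The normalized length. -/
noncomputable def len (h : Bool) (y : Fin 3 → ℝ) : ℝ := Real.sqrt (kap h * nrm y)

theorem len_pos {h : Bool} {y : Fin 3 → ℝ} (hy : 0 < kap h * nrm y) : 0 < len h y :=
  Real.sqrt_pos.2 hy

theorem nrm_eq {h : Bool} {y : Fin 3 → ℝ} (hy : 0 < kap h * nrm y) :
    nrm y = kap h * len h y ^ 2 := by
  rw [len, Real.sq_sqrt hy.le, ← mul_assoc, kap_sq, one_mul]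

/-- The exponential of `τ • Yv y`. -/
noncomputable def ex (h : Bool) (y : Fin 3 → ℝ) (τ : ℝ) : Mat :=
  cs h (τ * len h y) • (1 : Mat) + (sn h (τ * len h y) / len h y) • Yv y

@[simp] theorem ex_00 (h : Bool) (y : Fin 3 → ℝ) (τ : ℝ) :
    ex h y τ 0 0 = cs h (τ * len h y) + sn h (τ * len h y) / len h y * y 0 := by simp [ex]
@[simp] theorem ex_01 (h : Bool) (y : Fin 3 → ℝ) (τ : ℝ) :
    ex h y τ 0 1 = sn h (τ * len h y) / len h y * (y 1 - y 2) := by simp [ex]
@[simp] theorem ex_10 (h : Bool) (y : Fin 3 → ℝ) (τ : ℝ) :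
    ex h y τ 1 0 = sn h (τ * len h y) / len h y * (y 1 + y 2) := by simp [ex]
@[simp] theorem ex_11 (h : Bool) (y : Fin 3 → ℝ) (τ : ℝ) :
    ex h y τ 1 1 = cs h (τ * len h y) - sn h (τ * len h y) / len h y * y 0 := by
  simp [ex]; ring

theorem ex_det {h : Bool} {y : Fin 3 → ℝ} (hy : 0 < kap h * nrm y) (τ : ℝ) :
    ex h y τ 0 0 * ex h y τ 1 1 - ex h y τ 0 1 * ex h y τ 1 0 = 1 := by
  have h1 := cs_sq h (τ * len h y)
  have h2 := nrm_eq hy
  have h3 := (len_pos hy).ne'
  simp only [ex_00, ex_01, ex_10, ex_11]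
  have h4 : y 0 ^ 2 + y 1 ^ 2 - y 2 ^ 2 = kap h * len h y ^ 2 := h2
  field_simp
  linear_combination (len h y ^ 2) * h1 - (sn h (τ * len h y)) ^ 2 * h4

theorem ex_comm (h : Bool) (y : Fin 3 → ℝ) (σ τ : ℝ) :
    ex h y σ * ex h y τ = ex h y τ * ex h y σ := by
  apply mat_ext <;> simp only [Matrix.mul_apply, Fin.sum_univ_two, ex_00, ex_01, ex_10, ex_11]
    <;> ring

/-! ## Elliptic one-parameter groups of lifts -/

theorem ell_pos {U : Mat} (htr : U 1 1 = - U 0 0) (hsq : U 0 0 ^ 2 + U 0 1 * U 1 0 = -1)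
    (hr : 0 < U 1 0) : ∃ G : ℝ → (ℝ ≃o ℝ), (∀ σ τ, G (σ + τ) = G σ * G τ) ∧
      (∀ τ, IsLift (cos τ • (1 : Mat) + sin τ • U) (G τ)) ∧
      (∀ τ, |τ| ≤ π → ∀ s, |G τ s - s| ≤ π) := by
  obtain ⟨q, hq⟩ : ∃ q : ℝ, q = Real.sqrt (U 1 0) := ⟨_, rfl⟩
  have hq0 : 0 < q := by rw [hq]; exact Real.sqrt_pos.2 hr
  have hq2 : q * q = U 1 0 := by rw [hq]; exact Real.mul_self_sqrt hr.le
  obtain ⟨g, hg⟩ : ∃ g : Mat, g = !![1 / q, U 0 0 / q; 0, q] := ⟨_, rfl⟩
  have g00 : g 0 0 = 1 / q := by rw [hg]; simp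
  have g01 : g 0 1 = U 0 0 / q := by rw [hg]; simp
  have g10 : g 1 0 = 0 := by rw [hg]; simp
  have g11 : g 1 1 = q := by rw [hg]; simp
  have hd : g 0 0 * g 1 1 - g 0 1 * g 1 0 = 1 := by
    rw [g00, g01, g10, g11]; field_simp; ring
  have ht : -2 < g 0 0 + g 1 1 := by
    rw [g00, g11]
    have : 0 < 1 / q := by positivity
    linarith
  set f := can g hd ht with hf
  have hfl : IsLift g f := can_isLift g hd ht
  refine ⟨fun τ => f * sh τ * f⁻¹, fun σ τ => ?_, fun τ => ?_, fun τ hτ s => ?_⟩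
  · simp only [sh_add]; group
  · have h1 := (hfl.mul (sh_isLift τ)).mul (hfl.inv (adj_mul hd))
    have h2 : g * rot τ * adj g = cos τ • (1 : Mat) + sin τ • U := by
      have e01 : U 0 1 = -(1 + U 0 0 ^ 2) / U 1 0 := by
        rw [eq_div_iff hr.ne']; linarith
      apply mat_ext
      · simp [Matrix.mul_apply, Fin.sum_univ_two, adj, g00, g01, g10, g11]
        field_simp
      · simp only [Matrix.mul_apply, Fin.sum_univ_two, adj, g00, g01, g10, g11, rot_00, rot_01,
          rot_10, rot_11, Matrix.of_apply, Matrix.cons_val', Matrix.cons_val_zero,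
          Matrix.cons_val_one, Matrix.cons_val_fin_one, Matrix.add_apply, Matrix.smul_apply,
          Matrix.one_apply_ne (show (0 : Fin 2) ≠ 1 by decide), smul_eq_mul, e01, ← hq2]
        field_simp
        ring
      · simp [Matrix.mul_apply, Fin.sum_univ_two, adj, g00, g01, g10, g11, ← hq2]
        ring
      · simp [Matrix.mul_apply, Fin.sum_univ_two, adj, g00, g01, g10, g11, htr]
        field_simp
        ring
    rw [← h2]
    exact h1
  · have hper : f (f⁻¹ s + π) = s + π := by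
      rw [hfl.per]
      show f (f.symm s) + π = s + π
      rw [f.apply_symm_apply]
    have hper' : f (f⁻¹ s - π) = s - π := by
      have h1 := hfl.per (f⁻¹ s - π)
      rw [sub_add_cancel] at h1
      have h2 : f (f⁻¹ s) = s := f.apply_symm_apply s
      rw [h2] at h1
      linarith
    have h0 : (f * sh τ * f⁻¹) s = f (f⁻¹ s + τ) := rfl
    rw [h0]
    rw [abs_le] at hτ ⊢
    constructor
    · have : f (f⁻¹ s - π) ≤ f (f⁻¹ s + τ) := f.monotone (by linarith [hτ.1])
      linarith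
    · have : f (f⁻¹ s + τ) ≤ f (f⁻¹ s + π) := f.monotone (by linarith [hτ.2])
      linarith

theorem ell {U : Mat} (htr : U 1 1 = - U 0 0) (hsq : U 0 0 ^ 2 + U 0 1 * U 1 0 = -1) :
    ∃ G : ℝ → (ℝ ≃o ℝ), (∀ σ τ, G (σ + τ) = G σ * G τ) ∧
      (∀ τ, IsLift (cos τ • (1 : Mat) + sin τ • U) (G τ)) ∧
      (∀ τ, |τ| ≤ π → ∀ s, |G τ s - s| ≤ π) := by
  rcases lt_trichotomy (U 1 0) 0 with h | h | h
  · obtain ⟨G, h1, h2, h3⟩ := ell_pos (U := -U) (by simp [htr])
      (by simp only [Matrix.neg_apply]; linarith) (by simpa using h)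
    refine ⟨fun τ => G (-τ), fun σ τ => ?_, fun τ => ?_, fun τ hτ s => ?_⟩
    · show G (-(σ + τ)) = _
      rw [neg_add, h1]
    · have h4 := h2 (-τ)
      rw [Real.cos_neg, Real.sin_neg, neg_smul_neg] at h4
      exact h4
    · exact h3 (-τ) (by rwa [abs_neg]) s
  · exfalso
    rw [h] at hsq
    nlinarith [sq_nonneg (U 0 0)]
  · exact ell_pos htr hsq h

/-- One-parameter groups of lifts of both types. -/
theorem one_param {h : Bool} {y : Fin 3 → ℝ} (hy : 0 < kap h * nrm y) :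
    ∃ G : ℝ → (ℝ ≃o ℝ), (∀ σ τ, G (σ + τ) = G σ * G τ) ∧
      (∀ τ, IsLift (ex h y τ) (G τ)) ∧
      (∀ τ, |τ * len h y| ≤ π → ∀ s, |G τ s - s| ≤ π) := by
  have hl0 := len_pos hy
  have hl1 := hl0.ne'
  have hn := nrm_eq hy
  have hn' : y 0 ^ 2 + y 1 ^ 2 - y 2 ^ 2 = kap h * len h y ^ 2 := hn
  cases h with
  | true =>
    have hU : IsHyp ((1 / len true y) • Yv y) := by
      refine ⟨by simp, ?_⟩
      simp only [Matrix.smul_apply, Yv_00, Yv_01, Yv_10, smul_eq_mul]
      field_simp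
      simp only [kap, if_true] at hn'
      linarith
    refine ⟨fun τ => hl _ hU (τ * len true y), fun σ τ => ?_, fun τ => ?_, fun τ _ s => ?_⟩
    · simp only [add_mul, hl_add]
    · have h1 := hl_isLift hU (τ * len true y)
      have h2 : hexp ((1 / len true y) • Yv y) (τ * len true y) = ex true y τ := by
        apply mat_ext
        · simp [cs, sn]; ring
        · simp [sn]; ring
        · simp [sn]; ring
        · simp [cs, sn]; ring
      rwa [h2] at h1
    · exact (hl_sub hU _ s).le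
  | false =>
    obtain ⟨G, h1, h2, h3⟩ := ell (U := (1 / len false y) • Yv y) (by simp) (by
      simp only [Matrix.smul_apply, Yv_00, Yv_01, Yv_10, smul_eq_mul]
      field_simp
      simp only [kap, Bool.false_eq_true, if_false] at hn'
      linarith)
    refine ⟨fun τ => G (τ * len false y), fun σ τ => ?_, fun τ => ?_, fun τ hτ s => ?_⟩
    · simp only [add_mul, h1]
    · have h4 := h2 (τ * len false y)
      have h5 : cos (τ * len false y) • (1 : Mat) +
          sin (τ * len false y) • ((1 / len false y) • Yv y) = ex false y τ := by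
        rw [ex, smul_smul]
        simp only [cs, sn, Bool.false_eq_true, if_false]
        congr 2
        ring
      rwa [h5] at h4
    · exact h3 _ hτ s

end Pool.Agent.H42.ML
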