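import Pool.Agent.H42.ML.System

set_option autoImplicit false

/-!
# The map of the implicit function argument
-/

namespace Pool.Agent.H42.ML

open Pool.Agent.H42.LO Filter Topology
open scoped Matrix.Norms.Operator commutatorElement

/-! ## Coordinates -/

theorem coord_add (M N : Mat) : coord (M + N) = coord M + coord N := by
  ext i; fin_cases i <;> simp [coord] <;> ring
theorem coord_sub (M N : Mat) : coord (M - N) = coord M - coord N := by
  ext i; fin_cases i <;> simp [coord] <;> ring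
theorem coord_smul (t : ℝ) (M : Mat) : coord (t • M) = t • coord M := by
  ext i; fin_cases i <;> simp [coord] <;> ring
theorem coord_zero : coord (0 : Mat) = 0 := by
  ext i; fin_cases i <;> simp [coord]

/-- The coordinates as a continuous linear map. -/
noncomputable def coordL : Mat →L[ℝ] (Fin 3 → ℝ) :=
  LinearMap.toContinuousLinearMap
    { toFun := coord
      map_add' := coord_add
      map_smul' := coord_smul }

theorem coordL_apply (M : Mat) : coordL M = coord M := rfl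

section

variable {P : Type*} [NormedAddCommGroup P] [NormedSpace ℝ P] {a₀ : P}

theorem coord_cont {f : P → Mat} (hf : ContDiffAt ℝ 1 f a₀) (i : Fin 3) :
    ContDiffAt ℝ 1 (fun a => coord (f a) i) a₀ := by
  have h : ContDiffAt ℝ 1 (fun a => coordL (f a)) a₀ :=
    coordL.contDiff.contDiffAt.comp a₀ hf
  exact contDiffAt_pi.1 h i

theorem chi_cont {n : ℕ} {b : P → Fin n → Mat} (hb : ∀ k, ContDiffAt ℝ 1 (fun a => b a k) a₀)
    (v : FreeGroup (Fin n)) : ContDiffAt ℝ 1 (fun a => chi (b a) v) a₀ := by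
  induction v using FreeGroup.induction_on with
  | C1 => simpa using contDiffAt_const
  | of k =>
    have : (fun a => chi (b a) (FreeGroup.of k)) = fun a => b a k := by funext a; simp
    show ContDiffAt ℝ 1 (fun a => chi (b a) (FreeGroup.of k)) a₀
    rw [this]; exact hb k
  | inv_of k ih =>
    have : (fun a => chi (b a) (FreeGroup.of k)⁻¹) = fun a => - b a k := by funext a; simp
    show ContDiffAt ℝ 1 (fun a => chi (b a) (FreeGroup.of k)⁻¹) a₀
    rw [this]; exact (hb k).neg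
  | mul v w hv hw => simpa using hv.add hw

end

/-! ## The base point -/

variable {n : ℕ} (B : Braid n) {base : Fin 3 → Fin n} (hb : B.IsBase base)

/-- The diagonal values of the logarithmic derivatives. -/
def y₀ (d : Fin 3 → ℝ) : Fin 3 → Fin 3 → ℝ := fun c e => if c = e then d c else 0

/-- The base point of the parameter space. -/
def pt (n : ℕ) (ρ d : Fin 3 → ℝ) : Par n := (0, ρ, y₀ d, 0)

theorem pos₀ {d : Fin 3 → ℝ} (hd : ∀ c, d c ≠ 0) (c : Fin 3) :
    0 < kap (ty c) * nrm (y₀ d c) := by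
  have h : ∀ c, kap (ty c) * nrm (y₀ d c) = d c ^ 2 := by
    intro c
    fin_cases c <;> simp [kap, ty, nrm, y₀]
  rw [h]
  exact pow_pos_of_ne_zero_sq (hd c)
where
  pow_pos_of_ne_zero_sq {x : ℝ} (hx : x ≠ 0) : 0 < x ^ 2 := by positivity

section smooth

variable {ρ d : Fin 3 → ℝ}

theorem eps_cont : ContDiffAt ℝ 1 (fun a : Par n => a.1) (pt n ρ d) := contDiff_fst.contDiffAt

theorem rho_cont (c : Fin 3) : ContDiffAt ℝ 1 (fun a : Par n => a.2.1 c) (pt n ρ d) :=
  contDiffAt_pi.1 (contDiff_fst.comp contDiff_snd).contDiffAt c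

theorem y_cont (c : Fin 3) : ContDiffAt ℝ 1 (fun a : Par n => a.2.2.1 c) (pt n ρ d) :=
  contDiffAt_pi.1 (contDiff_fst.comp (contDiff_snd.comp contDiff_snd)).contDiffAt c

theorem b_cont (k : Fin n) : ContDiffAt ℝ 1 (fun a : Par n => a.2.2.2 k) (pt n ρ d) :=
  contDiffAt_pi.1 (contDiff_snd.comp (contDiff_snd.comp contDiff_snd)).contDiffAt k

theorem Yc_cont (c : Fin 3) : ContDiffAt ℝ 1 (fun a : Par n => Yc c a) (pt n ρ d) :=
  Yv_cont (y_cont c)

theorem fo_cont (v : FreeGroup (Fin n)) : ContDiffAt ℝ 1 (fun a => fo B hb v a) (pt n ρ d) :=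
  chi_cont (fun _ => Yc_cont _) v

theorem x0b_cont (hd : ∀ c, d c ≠ 0) (k : Fin n) :
    ContDiffAt ℝ 1 (fun a => (x0 B hb k a).b) (pt n ρ d) := by
  have h1 := RE_cont (h := ty (B.comp hb k)) (y_cont (n := n) (ρ := ρ) (d := d) (B.comp hb k))
    eps_cont rfl (pos₀ hd _)
  exact h1.add (((Yc_cont _).mul (fo_cont B hb _)).sub ((fo_cont B hb _).mul (Yc_cont _)))

theorem xNb_cont (hd : ∀ c, d c ≠ 0) (k : Fin n) :
    ContDiffAt ℝ 1 (fun a => (xN B hb k a).b) (pt n ρ d) :=
  (x0b_cont B hb hd k).add (b_cont k)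

/-- The matrix of the generator `k`. -/
noncomputable def X (k : Fin n) (a : Par n) : Mat :=
  1 + a.1 • Yc (B.comp hb k) a + a.1 ^ 2 • (xN B hb k a).b

open Classical in
/-- The matrix of the generator `k` as a unit. -/
noncomputable def Xu (k : Fin n) (a : Par n) : Matˣ :=
  if h : IsUnit (X B hb k a) then h.unit else 1

theorem X_cont (hd : ∀ c, d c ≠ 0) (k : Fin n) :
    ContDiffAt ℝ 1 (fun a => X B hb k a) (pt n ρ d) :=
  (contDiffAt_const.add (eps_cont.smul (Yc_cont _))).add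
    ((eps_cont.pow 2).smul (xNb_cont B hb hd k))

theorem X_pt (k : Fin n) : X B hb k (pt n ρ d) = 1 := by
  simp [X, pt]

theorem Xu_eq (hd : ∀ c, d c ≠ 0) (k : Fin n) :
    ∀ᶠ a in 𝓝 (pt n ρ d), (Xu B hb k a : Mat) = X B hb k a := by
  have h1 : {M : Mat | IsUnit M} ∈ 𝓝 (X B hb k (pt n ρ d)) := by
    rw [X_pt]
    exact Units.isOpen.mem_nhds isUnit_one
  filter_upwards [(X_cont B hb hd k).continuousAt h1] with a ha
  have ha' : IsUnit (X B hb k a) := ha
  rw [Xu, dif_pos ha']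
  rfl

theorem exp_gen (hd : ∀ c, d c ≠ 0) (k : Fin n) :
    Exp (fun a : Par n => a.1) (pt n ρ d) (Xu B hb k) (xN B hb k) := by
  refine ⟨Yc_cont _, fun a => (xN B hb k a).b, xNb_cont B hb hd k, ?_, ?_⟩
  · filter_upwards [Xu_eq B hb hd k] with a ha
    rw [ha]; rfl
  · exact Eventually.of_forall fun a _ => rfl

/-- The value of a word. -/
noncomputable def val (a : Par n) : FreeGroup (Fin n) →* Matˣ :=
  FreeGroup.lift fun k => Xu B hb k a

theorem exp_word (hd : ∀ c, d c ≠ 0) (v : FreeGroup (Fin n)) :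
    Exp (fun a : Par n => a.1) (pt n ρ d) (fun a => val B hb a v)
      (fun a => FreeGroup.lift (fun k => xN B hb k a) v) :=
  Exp.lift eps_cont rfl (exp_gen B hb hd) v

/-- The second order remainder of a word. -/
noncomputable def Rem (hd : ∀ c, d c ≠ 0) (ρ : Fin 3 → ℝ) (v : FreeGroup (Fin n)) :
    Par n → Mat := (exp_word (ρ := ρ) B hb hd v).2.choose

theorem Rem_cont (hd : ∀ c, d c ≠ 0) (v : FreeGroup (Fin n)) :
    ContDiffAt ℝ 1 (Rem B hb hd ρ v) (pt n ρ d) :=
  (exp_word (ρ := ρ) B hb hd v).2.choose_spec.1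

theorem Rem_eq (hd : ∀ c, d c ≠ 0) (v : FreeGroup (Fin n)) :
    ∀ᶠ a in 𝓝 (pt n ρ d), (val B hb a v : Mat) =
      1 + a.1 • fo B hb v a + a.1 ^ 2 • Rem B hb hd ρ v a := by
  have h := (exp_word (ρ := ρ) B hb hd v).2.choose_spec.2.1
  filter_upwards [h] with a ha
  rw [ha, φN_eq]
  rfl

theorem Rem_zero (hd : ∀ c, d c ≠ 0) (v : FreeGroup (Fin n)) :
    ∀ᶠ a in 𝓝 (pt n ρ d), a.1 = 0 → Rem B hb hd ρ v a =
      (φ0 B hb a v).b + chi a.2.2.2 v := by
  have h := (exp_word (ρ := ρ) B hb hd v).2.choose_spec.2.2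
  filter_upwards [h] with a ha h0
  have h1 := ha h0
  rw [φN_eq] at h1
  exact h1

/-! ## The map -/

/-- The second order remainder of the exponential of `- ε ^ 2 ρ Y`. -/
noncomputable def G (c : Fin 3) (a : Par n) : Mat :=
  -(a.2.1 c • Yc c a) + (a.1 ^ 2 * a.2.1 c ^ 2) • RE (ty c) (a.2.2.1 c) (-(a.1 ^ 2 * a.2.1 c))

theorem G_cont (hd : ∀ c, d c ≠ 0) (c : Fin 3) :
    ContDiffAt ℝ 1 (fun a : Par n => G c a) (pt n ρ d) := by
  have h1 : ContDiffAt ℝ 1 (fun a : Par n => -(a.1 ^ 2 * a.2.1 c)) (pt n ρ d) :=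
    ((eps_cont.pow 2).mul (rho_cont c)).neg
  have h2 := RE_cont (h := ty c) (y_cont (n := n) (ρ := ρ) (d := d) c) h1 (by simp [pt])
    (pos₀ hd _)
  exact (((rho_cont c).smul (Yc_cont c)).neg).add
    (((eps_cont.pow 2).mul ((rho_cont c).pow 2)).smul h2)

/-- The error of the longitude equation. -/
noncomputable def Psi (hd : ∀ c, d c ≠ 0) (ρ : Fin 3 → ℝ) (c : Fin 3) (a : Par n) : Mat :=
  Rem B hb hd ρ (B.longitude (base c)) a - G c a

theorem Psi_cont (hd : ∀ c, d c ≠ 0) (c : Fin 3) :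
    ContDiffAt ℝ 1 (fun a => Psi B hb hd ρ c a) (pt n ρ d) :=
  (Rem_cont B hb hd _).sub (G_cont hd c)

/-- The relator that leads to the strand `k`. -/
def rel (k : Fin n) : FreeGroup (Fin n) :=
  B.u (B.s⁻¹ k) * FreeGroup.of k * (B.u (B.s⁻¹ k))⁻¹ * (FreeGroup.of (B.s⁻¹ k))⁻¹

open Classical in
/-- The map of the implicit function argument. -/
noncomputable def Fm (hd : ∀ c, d c ≠ 0) (ρ : Fin 3 → ℝ) (a : Par n) :
    (Fin 3 → ℝ) × (Fin 3 → ℝ) × (Fin n → Mat) :=
  (fun c => coord (Psi B hb hd ρ c a) c, fun c => coord (Psi B hb hd ρ c a) (c + 2),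
    fun k => if ∃ c, k = base c then a.2.2.2 k else Rem B hb hd ρ (rel B k) a)

theorem Fm_cont (hd : ∀ c, d c ≠ 0) :
    ContDiffAt ℝ 1 (fun a => Fm B hb hd ρ a) (pt n ρ d) := by
  refine ContDiffAt.prodMk ?_ (ContDiffAt.prodMk ?_ ?_)
  · exact contDiffAt_pi.2 fun c => coord_cont (Psi_cont B hb hd c) c
  · exact contDiffAt_pi.2 fun c => coord_cont (Psi_cont B hb hd c) (c + 2)
  · refine contDiffAt_pi.2 fun k => ?_
    by_cases h : ∃ c, k = base c
    · simp only [if_pos h]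
      exact b_cont k
    · simp only [if_neg h]
      exact Rem_cont B hb hd _

end smooth

end Pool.Agent.H42.ML
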