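import Mathlib

set_option autoImplicit false

/-!
# Second order expansions

`N2 R` is the group of formal expressions `1 + a T + b T ^ 2` modulo `T ^ 3`.
-/

namespace Pool.Agent.H42.ML

/-- Formal expressions `1 + a T + b T ^ 2` modulo `T ^ 3`. -/
@[ext] structure N2 (R : Type*) where
  a : R
  b : R

namespace N2

variable {R : Type*} [Ring R]

instance : Mul (N2 R) := ⟨fun x y => ⟨x.a + y.a, x.b + y.b + x.a * y.a⟩⟩
instance : One (N2 R) := ⟨⟨0, 0⟩⟩
instance : Inv (N2 R) := ⟨fun x => ⟨-x.a, x.a * x.a - x.b⟩⟩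

@[simp] theorem mul_a (x y : N2 R) : (x * y).a = x.a + y.a := rfl
@[simp] theorem mul_b (x y : N2 R) : (x * y).b = x.b + y.b + x.a * y.a := rfl
@[simp] theorem one_a : (1 : N2 R).a = 0 := rfl
@[simp] theorem one_b : (1 : N2 R).b = 0 := rfl
@[simp] theorem inv_a (x : N2 R) : (x⁻¹).a = - x.a := rfl
@[simp] theorem inv_b (x : N2 R) : (x⁻¹).b = x.a * x.a - x.b := rfl

instance : Group (N2 R) :=
  Group.ofLeftAxioms
    (fun x y z => by
      ext
      · simp [add_assoc]
      · simp only [mul_b, mul_a]; noncomm_ring)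
    (fun x => by ext <;> simp)
    (fun x => by ext <;> simp)

theorem conj_eq (g x : N2 R) : g * x * g⁻¹ = ⟨x.a, x.b + (g.a * x.a - x.a * g.a)⟩ := by
  ext
  · simp
  · simp only [mul_b, mul_a, inv_a, inv_b]; noncomm_ring

open scoped commutatorElement in
theorem comm_eq (x y : N2 R) : ⁅x, y⁆ = ⟨0, x.a * y.a - y.a * x.a⟩ := by
  rw [commutatorElement_def]
  ext
  · simp
  · simp only [mul_b, mul_a, inv_a, inv_b]; noncomm_ring

theorem zpow_b (c : R) (k : ℤ) : (⟨0, c⟩ : N2 R) ^ k = ⟨0, k • c⟩ := by
  induction k using Int.induction_on with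
  | zero => rw [zpow_zero, zero_smul]; rfl
  | succ n ih => rw [zpow_add_one, ih]; ext <;> simp [add_smul]
  | pred n ih => rw [zpow_sub_one, ih]; ext <;> simp [sub_smul, ← sub_eq_add_neg]

/-- The first coordinate as a homomorphism. -/
def fst : N2 R →* Multiplicative R where
  toFun x := Multiplicative.ofAdd x.a
  map_one' := rfl
  map_mul' _ _ := rfl

/-- Elements with vanishing first coordinate are central. -/
theorem central {x : N2 R} (hx : x.a = 0) (y : N2 R) : x * y = y * x := by
  ext
  · simp [add_comm]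
  · simp [hx, add_comm]

theorem comm_one (x : N2 R) (hx : x ∈ commutator (N2 R)) : x.a = 0 := by
  have : commutator (N2 R) ≤ (fst (R := R)).ker := Abelianization.commutator_subset_ker _
  have h := this hx
  rw [MonoidHom.mem_ker] at h
  exact Multiplicative.ofAdd.injective h

theorem comm_two (x : N2 R) (hx : x ∈ ⁅commutator (N2 R), (⊤ : Subgroup (N2 R))⁆) : x = 1 := by
  have h3 : ⁅commutator (N2 R), (⊤ : Subgroup (N2 R))⁆ ≤ ⊥ := by
    rw [Subgroup.commutator_le]
    intro g hg y _
    rw [Subgroup.mem_bot, commutatorElement_eq_one_iff_mul_comm]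
    exact central (comm_one g hg) y
  exact Subgroup.mem_bot.1 (h3 hx)

end N2

theorem map_comm_one {G H : Type*} [Group G] [Group H] (f : G →* H) {x : G}
    (hx : x ∈ commutator G) : f x ∈ commutator H := by
  have h := Subgroup.mem_map_of_mem f hx
  rw [commutator_def, Subgroup.map_commutator] at h
  exact Subgroup.commutator_mono le_top le_top h

theorem map_comm_two {G H : Type*} [Group G] [Group H] (f : G →* H) {x : G}
    (hx : x ∈ ⁅commutator G, (⊤ : Subgroup G)⁆) : f x ∈ ⁅commutator H, (⊤ : Subgroup H)⁆ := by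
  have h := Subgroup.mem_map_of_mem f hx
  rw [Subgroup.map_commutator] at h
  refine Subgroup.commutator_mono ?_ le_top h
  rintro _ ⟨y, hy, rfl⟩
  exact map_comm_one f hy

end Pool.Agent.H42.ML
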