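import Pool.Agent.H42.ML.Solve

set_option autoImplicit false

/-!
# The remaining equations follow
-/

namespace Pool.Agent.H42.ML

open Pool.Agent.H42.LO Filter Topology
open scoped Matrix.Norms.Operator commutatorElement

theorem telescope {R : Type*} [Ring R] : ∀ (L' L : List R), L'.length = L.length →
    L'.prod - L.prod = ∑ i ∈ Finset.range L.length,
      (L'.take i).prod * (L'.getD i 0 - L.getD i 0) * (L.drop (i + 1)).prod
  | [], [], _ => by simp
  | a :: l', b :: l, h => by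
    have h' : l'.length = l.length := by simpa using h
    have ih := telescope l' l h'
    rw [List.length_cons, Finset.sum_range_succ']
    simp only [List.take_succ_cons, List.prod_cons, List.getD_cons_succ, List.drop_succ_cons,
      List.take_zero, List.prod_nil, List.getD_cons_zero, one_mul, List.drop_zero]
    simp only [mul_assoc] at ih ⊢
    rw [← Finset.mul_sum, ← ih]
    noncomm_ring
  | [], _ :: _, h => by simp at h
  | _ :: _, [], h => by simp at h

variable {n : ℕ} (B : Braid n) {base : Fin 3 → Fin n} (hb : B.IsBase base)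
variable {ρ d : Fin 3 → ℝ}

/-- The matrix of a word. -/
noncomputable def ψ (a : Par n) : FreeGroup (Fin n) →* Mat :=
  (Units.coeHom Mat).comp (val B hb a)

theorem ψ_inv (a : Par n) (v : FreeGroup (Fin n)) : ψ B hb a v * ψ B hb a v⁻¹ = 1 := by
  rw [← map_mul, mul_inv_cancel, map_one]

theorem ψ_inv' (a : Par n) (v : FreeGroup (Fin n)) : ψ B hb a v⁻¹ * ψ B hb a v = 1 := by
  rw [← map_mul, inv_mul_cancel, map_one]

theorem ψ_tendsto (hd : ∀ c, d c ≠ 0) (v : FreeGroup (Fin n)) :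
    Tendsto (fun a => ψ B hb a v) (𝓝 (pt n ρ d)) (𝓝 1) := by
  have h1 := Rem_eq (ρ := ρ) B hb hd v
  have h2 : ContDiffAt ℝ 1 (fun a => 1 + a.1 • fo B hb v a + a.1 ^ 2 • Rem B hb hd ρ v a)
      (pt n ρ d) :=
    (contDiffAt_const.add (eps_cont.smul (fo_cont B hb v))).add
      ((eps_cont.pow 2).smul (Rem_cont B hb hd v))
  have h3 := h2.continuousAt.tendsto
  have h4 : 1 + (pt n ρ d).1 • fo B hb v (pt n ρ d) +
      (pt n ρ d).1 ^ 2 • Rem B hb hd ρ v (pt n ρ d) = 1 := by simp [pt]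
  rw [h4] at h3
  refine h3.congr' ?_
  filter_upwards [h1] with a ha
  exact ha.symm

/-- The factor in the second order expansion of `sn`. -/
noncomputable def wt (c : Fin 3) (a : Par n) : ℝ :=
  1 + a.1 * (len (ty c) (a.2.2.1 c) * gs (ty c) (a.1 * len (ty c) (a.2.2.1 c)))

theorem wt_tendsto (hd : ∀ c, d c ≠ 0) (c : Fin 3) :
    Tendsto (fun a : Par n => wt c a) (𝓝 (pt n ρ d)) (𝓝 1) := by
  have hi : ∀ i, ContDiffAt ℝ 1 (fun a : Par n => a.2.2.1 c i) (pt n ρ d) :=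
    fun i => contDiffAt_pi.1 (y_cont c) i
  have hn : ContDiffAt ℝ 1 (fun a : Par n => kap (ty c) * nrm (a.2.2.1 c)) (pt n ρ d) :=
    contDiffAt_const.mul ((((hi 0).pow 2).add ((hi 1).pow 2)).sub ((hi 2).pow 2))
  have hl : ContDiffAt ℝ 1 (fun a : Par n => len (ty c) (a.2.2.1 c)) (pt n ρ d) :=
    hn.sqrt (pos₀ hd c).ne'
  have hz : ContDiffAt ℝ 1 (fun a : Par n => a.1 * len (ty c) (a.2.2.1 c)) (pt n ρ d) :=
    eps_cont.mul hl
  have hs : ContDiffAt ℝ 1 (fun a : Par n => gs (ty c) (a.1 * len (ty c) (a.2.2.1 c)))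
      (pt n ρ d) := by
    have := gs_cont (ty c)
    have hz0 : (pt n ρ d).1 * len (ty c) ((pt n ρ d).2.2.1 c) = 0 := by simp [pt]
    rw [← hz0] at this
    exact this.comp (pt n ρ d) hz
  have h2 : ContDiffAt ℝ 1 (fun a : Par n => wt c a) (pt n ρ d) :=
    contDiffAt_const.add (eps_cont.mul (hl.mul hs))
  have h3 := h2.continuousAt.tendsto
  have h4 : wt c (pt n ρ d) = 1 := by simp [wt, pt]
  rwa [h4] at h3

theorem pos_ev (hd : ∀ c, d c ≠ 0) :
    ∀ᶠ a in 𝓝 (pt n ρ d), ∀ c, 0 < kap (ty c) * nrm (a.2.2.1 c) := by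
  refine eventually_all.2 fun c => ?_
  have hi : ∀ i, ContDiffAt ℝ 1 (fun a : Par n => a.2.2.1 c i) (pt n ρ d) :=
    fun i => contDiffAt_pi.1 (y_cont c) i
  have hn : ContDiffAt ℝ 1 (fun a : Par n => kap (ty c) * nrm (a.2.2.1 c)) (pt n ρ d) :=
    contDiffAt_const.mul ((((hi 0).pow 2).add ((hi 1).pow 2)).sub ((hi 2).pow 2))
  exact continuousAt_const.eventually_lt hn.continuousAt (pos₀ hd c)

/-- The first consequences of the equations. -/
structure Basic (a : Par n) : Prop where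
  pos : ∀ c, 0 < kap (ty c) * nrm (a.2.2.1 c)
  gen : ∀ c, ψ B hb a (FreeGroup.of (base c)) = ex (ty c) (a.2.2.1 c) a.1
  rel : ∀ k, (¬ ∃ c, k = base c) → val B hb a (rel B k) = 1
  long : ∀ c, ∃ P : Mat, ψ B hb a (B.longitude (base c)) =
    ex (ty c) (a.2.2.1 c) (-(a.1 ^ 2 * a.2.1 c)) + a.1 ^ 2 • P ∧
    coord P c = 0 ∧ coord P (c + 2) = 0

theorem basic_ev {μ : ℤ} (hμ : B.HasTripleLinking base μ) (hd : ∀ c, d c ≠ 0) :
    ∀ᶠ a in 𝓝 (pt n ρ d), Fm B hb hd ρ a = 0 → Basic B hb a := by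
  have hX : ∀ᶠ a in 𝓝 (pt n ρ d), ∀ k, (Xu B hb k a : Mat) = X B hb k a :=
    eventually_all.2 fun k => Xu_eq B hb hd k
  have hR : ∀ᶠ a in 𝓝 (pt n ρ d), ∀ k, (val B hb a (rel B k) : Mat) =
      1 + a.1 • fo B hb (rel B k) a + a.1 ^ 2 • Rem B hb hd ρ (rel B k) a :=
    eventually_all.2 fun k => Rem_eq B hb hd _
  have hL : ∀ᶠ a in 𝓝 (pt n ρ d), ∀ c, (val B hb a (B.longitude (base c)) : Mat) =
      1 + a.1 • fo B hb (B.longitude (base c)) a +
        a.1 ^ 2 • Rem B hb hd ρ (B.longitude (base c)) a :=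
    eventually_all.2 fun c => Rem_eq B hb hd _
  filter_upwards [pos_ev hd, hX, hR, hL] with a hpos h1 h2 h3 hF
  have hF1 : ∀ c, coord (Psi B hb hd ρ c a) c = 0 := fun c => congrFun (congrArg (fun w => w.1) hF) c
  have hF2 : ∀ c, coord (Psi B hb hd ρ c a) (c + 2) = 0 :=
    fun c => congrFun (congrArg (fun w => w.2.1) hF) c
  have hF3 : ∀ k, (Fm B hb hd ρ a).2.2 k = 0 := fun k => congrFun (congrArg (fun w => w.2.2) hF) k
  refine ⟨hpos, fun c => ?_, fun k hk => ?_, fun c => ?_⟩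
  · have hbc : a.2.2.2 (base c) = 0 := by
      have := hF3 (base c)
      simp only [Fm] at this
      rwa [if_pos ⟨c, rfl⟩] at this
    have e1 : ψ B hb a (FreeGroup.of (base c)) = X B hb (base c) a := by
      rw [← h1]
      simp [ψ, val]
    rw [e1, X, ex_eq (hpos c), xN, x0, B.comp_base hb, B.V_base hb, hbc]
    simp [fo, Yc]
  · have hk0 : Rem B hb hd ρ (rel B k) a = 0 := by
      have := hF3 k
      simp only [Fm] at this
      rwa [if_neg hk] at this
    have hs : B.s (B.s⁻¹ k) = k := by simp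
    have hc := B.comp_s hb (B.s⁻¹ k)
    rw [hs] at hc
    have hf : fo B hb (rel B k) a = 0 := by
      rw [fo, rel, chi_mul, chi_mul, chi_mul, chi_inv, chi_inv, chi_of, chi_of, hc]
      abel
    have := h2 k
    rw [hk0, hf] at this
    apply Units.ext
    rw [this]
    simp
  · refine ⟨Psi B hb hd ρ c a, ?_, hF1 c, hF2 c⟩
    have e1 : ψ B hb a (B.longitude (base c)) = (val B hb a (B.longitude (base c)) : Mat) := rfl
    rw [e1, h3 c, fo_longitude B hb hμ, ex_eq (hpos c), Psi, G, Yc]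
    rw [smul_zero, add_zero, smul_sub, smul_add, smul_neg, smul_smul, smul_smul, neg_smul,
      show (-(a.1 ^ 2 * a.2.1 c)) ^ 2 = a.1 ^ 2 * (a.1 ^ 2 * a.2.1 c ^ 2) by ring]
    abel

/-- The unit vectors. -/
def uv (c : Fin 3) : Fin 3 → ℝ := fun i => if i = c then 1 else 0

theorem eq_of_coord {P : Mat} {c : Fin 3} (h1 : coord P c = 0) (h2 : coord P (c + 2) = 0) :
    P = ((P 0 0 + P 1 1) / 2) • (1 : Mat) + coord P (c + 1) • Yv (uv (c + 1)) := by
  have h3 : coord P = coord P (c + 1) • uv (c + 1) := by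
    funext i
    fin_cases c <;> fin_cases i <;> simp_all [uv]
  have h4 : Yv (coord P) = coord P (c + 1) • Yv (uv (c + 1)) := by
    conv_lhs => rw [h3]
    apply mat_ext <;> simp [mul_sub, mul_add]
  rw [← h4]
  exact decomp P

theorem comm_part {a : Par n} {c : Fin 3} (hpos : 0 < kap (ty c) * nrm (a.2.2.1 c)) {P : Mat}
    (h1 : coord P c = 0) (h2 : coord P (c + 2) = 0) (τ : ℝ) :
    (ex (ty c) (a.2.2.1 c) τ + a.1 ^ 2 • P) * ex (ty c) (a.2.2.1 c) a.1 -
      ex (ty c) (a.2.2.1 c) a.1 * (ex (ty c) (a.2.2.1 c) τ + a.1 ^ 2 • P) =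
    (a.1 ^ 3 * (coord P (c + 1) * wt c a)) •
      (Yv (uv (c + 1)) * Yc c a - Yc c a * Yv (uv (c + 1))) := by
  have hl := (len_pos hpos).ne'
  have e1 : sn (ty c) (a.1 * len (ty c) (a.2.2.1 c)) / len (ty c) (a.2.2.1 c) = a.1 * wt c a := by
    rw [gs_eq, wt]; field_simp
  obtain ⟨α, hα⟩ : ∃ α : ℝ, α = cs (ty c) (a.1 * len (ty c) (a.2.2.1 c)) := ⟨_, rfl⟩
  have e2 : ex (ty c) (a.2.2.1 c) a.1 = α • (1 : Mat) + (a.1 * wt c a) • Yc c a := by
    rw [ex, e1, hα, Yc]
  have e3 : (ex (ty c) (a.2.2.1 c) τ + a.1 ^ 2 • P) * ex (ty c) (a.2.2.1 c) a.1 -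
      ex (ty c) (a.2.2.1 c) a.1 * (ex (ty c) (a.2.2.1 c) τ + a.1 ^ 2 • P) =
      a.1 ^ 2 • (P * ex (ty c) (a.2.2.1 c) a.1 - ex (ty c) (a.2.2.1 c) a.1 * P) := by
    rw [add_mul, mul_add, ex_comm (ty c) (a.2.2.1 c) τ a.1, smul_sub, smul_mul_assoc,
      mul_smul_comm]
    abel
  have e4 := eq_of_coord h1 h2
  obtain ⟨σ, hσ⟩ : ∃ σ : ℝ, σ = (P 0 0 + P 1 1) / 2 := ⟨_, rfl⟩
  obtain ⟨t, ht⟩ : ∃ t : ℝ, t = coord P (c + 1) := ⟨_, rfl⟩
  rw [← hσ, ← ht] at e4
  rw [e3, e2, ← ht, e4]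
  simp only [add_mul, mul_add, smul_mul_assoc, mul_smul_comm, one_mul, mul_one, smul_add,
    smul_smul, smul_sub]
  ring_nf
  abel

/-- The word to the left of the closing relation of the component `c`. -/
noncomputable def W1 (c : Fin 3) : FreeGroup (Fin n) :=
  ((List.ofFn fun k => B.u k * FreeGroup.of (B.s k) * (B.u k)⁻¹).take
    (B.s⁻¹ (base c) : Fin n)).prod * (B.V hb (B.s⁻¹ (base c)))⁻¹

/-- The word to the right of the closing relation of the component `c`. -/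
noncomputable def W2 (c : Fin 3) : FreeGroup (Fin n) :=
  (B.longitude (base c))⁻¹ * B.V hb (B.s⁻¹ (base c)) *
    ((List.ofFn fun k => (FreeGroup.of k : FreeGroup (Fin n))).drop
      ((B.s⁻¹ (base c) : Fin n) + 1)).prod

theorem close_diff {a : Par n} (hB : Basic B hb a) {k : Fin n} {c : Fin 3} (h : B.s k = base c) :
    ψ B hb a (B.u k * FreeGroup.of (B.s k) * (B.u k)⁻¹) - ψ B hb a (FreeGroup.of k) =
      ψ B hb a (B.V hb k)⁻¹ * (ψ B hb a (B.longitude (base c)) * ψ B hb a (FreeGroup.of (base c)) -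
        ψ B hb a (FreeGroup.of (base c)) * ψ B hb a (B.longitude (base c))) *
        ψ B hb a ((B.longitude (base c))⁻¹ * B.V hb k) := by
  have hrel : ∀ k, (∀ c, B.s k ≠ base c) →
      val B hb a (B.u k) * val B hb a (FreeGroup.of (B.s k)) * (val B hb a (B.u k))⁻¹ =
        val B hb a (FreeGroup.of k) := by
    intro j hj
    have h1 := hB.rel (B.s j) (fun ⟨c, hc⟩ => hj c hc)
    have h2 : B.s⁻¹ (B.s j) = j := by simp
    rw [rel, h2, map_mul, map_mul, map_mul, map_inv, map_inv, mul_inv_eq_one] at h1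
    exact h1
  have hc : B.comp hb k = c := by
    rw [← B.comp_s hb, h, B.comp_base hb]
  have h1 := B.V_conj hb (val B hb a) hrel k
  rw [hc] at h1
  have h2 := B.V_close hb h
  have h3 : val B hb a (B.V hb k) * val B hb a (B.u k) =
      val B hb a (B.longitude (base c)) * val B hb a (FreeGroup.of (base c)) ^
        ((B.own (base c) (B.par (base c) (Function.minimalPeriod B.s (base c)))).toAdd) := by
    rw [← map_mul, h2, Braid.longitude, map_mul, map_zpow, mul_assoc, ← zpow_add,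
      neg_add_cancel, zpow_zero, mul_one]
  set N : ℤ := (B.own (base c) (B.par (base c) (Function.minimalPeriod B.s (base c)))).toAdd
  set v := val B hb a (B.V hb k) with hv
  set w := val B hb a (B.u k) with hw
  set x := val B hb a (FreeGroup.of (base c)) with hx
  set z := val B hb a (FreeGroup.of k) with hz
  set l := val B hb a (B.longitude (base c)) with hl
  have h4 : w = v⁻¹ * (l * x ^ N) := by rw [← h3]; group
  have h5 : z = v⁻¹ * x * v := by rw [← h1]; group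
  have h6 : w * x * w⁻¹ = v⁻¹ * (l * x * l⁻¹) * v := by
    rw [h4]
    have : x ^ N * x * (x ^ N)⁻¹ = x := by group
    calc v⁻¹ * (l * x ^ N) * x * (v⁻¹ * (l * x ^ N))⁻¹
        = v⁻¹ * (l * (x ^ N * x * (x ^ N)⁻¹) * l⁻¹) * v := by group
      _ = _ := by rw [this]
  have e1 : ψ B hb a (B.u k * FreeGroup.of (B.s k) * (B.u k)⁻¹) =
      ((v⁻¹ * (l * x * l⁻¹) * v : Matˣ) : Mat) := by
    rw [← h6, h]
    show ((val B hb a (B.u k * FreeGroup.of (base c) * (B.u k)⁻¹) : Matˣ) : Mat) = _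
    rw [map_mul, map_mul, map_inv]
  have e2 : ψ B hb a (FreeGroup.of k) = ((v⁻¹ * x * v : Matˣ) : Mat) := by
    rw [← h5]; rfl
  have e3 : ψ B hb a (B.V hb k)⁻¹ = ((v⁻¹ : Matˣ) : Mat) := by
    show ((val B hb a (B.V hb k)⁻¹ : Matˣ) : Mat) = _
    rw [map_inv]
  have e4 : ψ B hb a ((B.longitude (base c))⁻¹ * B.V hb k) = ((l⁻¹ * v : Matˣ) : Mat) := by
    show ((val B hb a ((B.longitude (base c))⁻¹ * B.V hb k) : Matˣ) : Mat) = _
    rw [map_mul, map_inv]
  have e5 : ψ B hb a (B.longitude (base c)) = ((l : Matˣ) : Mat) := rfl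
  have e6 : ψ B hb a (FreeGroup.of (base c)) = ((x : Matˣ) : Mat) := rfl
  rw [e1, e2, e3, e4, e5, e6]
  simp only [Units.val_mul]
  have e7 : ((l : Matˣ) : Mat) * ((l⁻¹ : Matˣ) : Mat) = 1 := Units.mul_inv l
  calc ((v⁻¹ : Matˣ) : Mat) * ((l : Mat) * x * ((l⁻¹ : Matˣ) : Mat)) * v -
        ((v⁻¹ : Matˣ) : Mat) * x * v
      = ((v⁻¹ : Matˣ) : Mat) * ((l : Mat) * x * ((l⁻¹ : Matˣ) : Mat)) * v -
        ((v⁻¹ : Matˣ) : Mat) * x * (((l : Matˣ) : Mat) * ((l⁻¹ : Matˣ) : Mat)) * v := by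
        rw [e7, mul_one]
    _ = _ := by noncomm_ring

/-- The linear relation between the remaining errors. -/
theorem sum_eq {a : Par n} (hB : Basic B hb a) (ha : a.1 ≠ 0) {P : Fin 3 → Mat}
    (hP : ∀ c, ψ B hb a (B.longitude (base c)) =
      ex (ty c) (a.2.2.1 c) (-(a.1 ^ 2 * a.2.1 c)) + a.1 ^ 2 • P c ∧
      coord (P c) c = 0 ∧ coord (P c) (c + 2) = 0) :
    ∑ c, (coord (P c) (c + 1) * wt c a) •
      (ψ B hb a (W1 B hb c) * (Yv (uv (c + 1)) * Yc c a - Yc c a * Yv (uv (c + 1))) *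
        ψ B hb a (W2 B hb c)) = 0 := by
  set l₁ : List (FreeGroup (Fin n)) :=
    List.ofFn fun k => B.u k * FreeGroup.of (B.s k) * (B.u k)⁻¹ with hl₁
  set l₂ : List (FreeGroup (Fin n)) :=
    List.ofFn fun k => (FreeGroup.of k : FreeGroup (Fin n)) with hl₂
  have len₁ : l₁.length = n := by simp [hl₁]
  have len₂ : l₂.length = n := by simp [hl₂]
  have htel := telescope (l₁.map (ψ B hb a)) (l₂.map (ψ B hb a)) (by simp [len₁, len₂])
  rw [← map_list_prod, ← map_list_prod, B.prod_eq, sub_self, List.length_map, len₂,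
    ← Fin.sum_univ_eq_sum_range (fun i => ((l₁.map (ψ B hb a)).take i).prod *
      ((l₁.map (ψ B hb a)).getD i 0 - (l₂.map (ψ B hb a)).getD i 0) *
      ((l₂.map (ψ B hb a)).drop (i + 1)).prod)] at htel
  have hterm : ∀ k : Fin n, ((l₁.map (ψ B hb a)).take (k : ℕ)).prod *
      ((l₁.map (ψ B hb a)).getD (k : ℕ) 0 - (l₂.map (ψ B hb a)).getD (k : ℕ) 0) *
      ((l₂.map (ψ B hb a)).drop ((k : ℕ) + 1)).prod =
      ψ B hb a (l₁.take k).prod *
        (ψ B hb a (B.u k * FreeGroup.of (B.s k) * (B.u k)⁻¹) - ψ B hb a (FreeGroup.of k)) *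
        ψ B hb a (l₂.drop (k + 1)).prod := by
    intro k
    have g1 : (l₁.map (ψ B hb a)).getD (k : ℕ) 0 =
        ψ B hb a (B.u k * FreeGroup.of (B.s k) * (B.u k)⁻¹) := by
      rw [List.getD_eq_getElem _ _ (by simp [len₁])]
      simp [hl₁]
    have g2 : (l₂.map (ψ B hb a)).getD (k : ℕ) 0 = ψ B hb a (FreeGroup.of k) := by
      rw [List.getD_eq_getElem _ _ (by simp [len₂])]
      simp [hl₂]
    rw [g1, g2, ← List.map_take, ← List.map_drop, map_list_prod, map_list_prod]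
  simp only [hterm] at htel
  have hinj : Function.Injective (fun c : Fin 3 => B.s⁻¹ (base c)) := by
    intro c d hcd
    exact B.base_injective hb (B.s⁻¹.injective hcd)
  have hsum := Fintype.sum_of_injective (fun c : Fin 3 => B.s⁻¹ (base c)) hinj
    (fun c => (a.1 ^ 3) • ((coord (P c) (c + 1) * wt c a) •
      (ψ B hb a (W1 B hb c) * (Yv (uv (c + 1)) * Yc c a - Yc c a * Yv (uv (c + 1))) *
        ψ B hb a (W2 B hb c))))
    (fun k => ψ B hb a (l₁.take k).prod *
        (ψ B hb a (B.u k * FreeGroup.of (B.s k) * (B.u k)⁻¹) - ψ B hb a (FreeGroup.of k)) *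
        ψ B hb a (l₂.drop (k + 1)).prod)
    (by
      intro k hk
      have hnb : ¬ ∃ c, B.s k = base c := by
        rintro ⟨c, hc⟩
        exact hk ⟨c, by show B.s⁻¹ (base c) = k; rw [← hc]; simp⟩
      have h1 := hB.rel (B.s k) hnb
      have h2 : B.s⁻¹ (B.s k) = k := by simp
      rw [rel, h2, map_mul, map_inv, mul_inv_eq_one] at h1
      have h3 : ψ B hb a (B.u k * FreeGroup.of (B.s k) * (B.u k)⁻¹) =
          ψ B hb a (FreeGroup.of k) := congrArg Units.val h1
      rw [h3, sub_self, mul_zero, zero_mul])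
    (by
      intro c
      have hs : B.s (B.s⁻¹ (base c)) = base c := by simp
      have h1 := close_diff B hb hB hs
      rw [(hP c).1, hB.gen c, comm_part (hB.pos c) (hP c).2.1 (hP c).2.2] at h1
      show _ = ψ B hb a (l₁.take (B.s⁻¹ (base c) : Fin n)).prod *
        (ψ B hb a (B.u (B.s⁻¹ (base c)) * FreeGroup.of (B.s (B.s⁻¹ (base c))) *
          (B.u (B.s⁻¹ (base c)))⁻¹) - ψ B hb a (FreeGroup.of (B.s⁻¹ (base c)))) *
        ψ B hb a (l₂.drop ((B.s⁻¹ (base c) : Fin n) + 1)).prod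
      rw [h1, W1, W2, ← hl₁, ← hl₂, map_mul, map_mul (ψ B hb a) ((B.longitude (base c))⁻¹ *
        B.V hb (B.s⁻¹ (base c))), smul_smul]
      simp only [mul_smul_comm, smul_mul_assoc, mul_assoc])
  rw [← hsum, ← Finset.smul_sum] at htel
  have h0 := (smul_eq_zero.1 htel.symm).resolve_left (pow_ne_zero 3 ha)
  exact h0

theorem br_val (d : Fin 3 → ℝ) (c c' : Fin 3) : br (uv (c + 1)) (y₀ d c) (c' + 2) =
    if c = c' then (![2, -2, -2] : Fin 3 → ℝ) c * d c else 0 := by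
  fin_cases c <;> fin_cases c' <;> simp [br, uv, y₀]

theorem entry_cont (i j : Fin 2) : Continuous (fun M : Mat => M i j) :=
  (Matrix.entryLinearMap ℝ ℝ i j).continuous_of_finiteDimensional

/-- The coefficients of the linear relation. -/
noncomputable def mcoef (c c' : Fin 3) (a : Par n) : ℝ :=
  wt c a * coord (ψ B hb a (W1 B hb c) *
    (Yv (uv (c + 1)) * Yc c a - Yc c a * Yv (uv (c + 1))) * ψ B hb a (W2 B hb c)) (c' + 2)

theorem mcoef_tendsto (hd : ∀ c, d c ≠ 0) (c c' : Fin 3) :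
    Tendsto (fun a => mcoef B hb c c' a) (𝓝 (pt n ρ d))
      (𝓝 (if c = c' then (![2, -2, -2] : Fin 3 → ℝ) c * d c else 0)) := by
  have h1 := ψ_tendsto (ρ := ρ) B hb hd (W1 B hb c)
  have h2 := ψ_tendsto (ρ := ρ) B hb hd (W2 B hb c)
  have h3 : Tendsto (fun a : Par n => Yc c a) (𝓝 (pt n ρ d)) (𝓝 (Yc c (pt n ρ d))) :=
    (Yc_cont c).continuousAt.tendsto
  have h4 : Tendsto (fun a : Par n => Yv (uv (c + 1)) * Yc c a - Yc c a * Yv (uv (c + 1)))
      (𝓝 (pt n ρ d)) (𝓝 (Yv (uv (c + 1)) * Yc c (pt n ρ d) -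
        Yc c (pt n ρ d) * Yv (uv (c + 1)))) :=
    (tendsto_const_nhds.mul h3).sub (h3.mul tendsto_const_nhds)
  have h5 := (h1.mul h4).mul h2
  rw [one_mul, mul_one] at h5
  have h6 := (coordL.continuous.tendsto _).comp h5
  have h7 := (continuous_apply (c' + 2)).tendsto _ |>.comp h6
  have h8 := (wt_tendsto (n := n) (ρ := ρ) hd c).mul h7
  have e : (Yv (uv (c + 1)) * Yc c (pt n ρ d) - Yc c (pt n ρ d) * Yv (uv (c + 1))) =
      Yv (br (uv (c + 1)) (y₀ d c)) := by
    have : Yc c (pt n ρ d) = Yv (y₀ d c) := rfl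
    rw [this, Yv_bracket]; rfl
  rw [one_mul, e, coordL_apply, coord_Yv, br_val] at h8
  exact h8

theorem max_elim {t : Fin 3 → ℝ} {m : Fin 3 → Fin 3 → ℝ} {d : Fin 3 → ℝ} {δ : ℝ} (hδ : 0 < δ)
    (hd : ∀ c, 4 * δ ≤ |d c|)
    (hm : ∀ c c', |m c c' - (if c = c' then (![2, -2, -2] : Fin 3 → ℝ) c * d c else 0)| < δ)
    (hsum : ∀ c', ∑ c, t c * m c c' = 0) : ∀ c, t c = 0 := by
  obtain ⟨k, hk⟩ := Finite.exists_max (fun c => |t c|)
  have key : |t k| = 0 := by
    by_contra hne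
    have hpos : 0 < |t k| := lt_of_le_of_ne (abs_nonneg _) (Ne.symm hne)
    have hdiag : 7 * δ < |m k k| := by
      have h1 := hm k k
      rw [if_pos rfl] at h1
      have h2 : |(![2, -2, -2] : Fin 3 → ℝ) k * d k| = 2 * |d k| := by
        rw [abs_mul]; congr 1; fin_cases k <;> simp
      have h3 : |(![2, -2, -2] : Fin 3 → ℝ) k * d k| ≤
          |m k k| + |m k k - (![2, -2, -2] : Fin 3 → ℝ) k * d k| := by
        have := abs_sub_abs_le_abs_sub ((![2, -2, -2] : Fin 3 → ℝ) k * d k) (m k k)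
        rw [abs_sub_comm] at this
        linarith
      have h4 := hd k
      linarith
    have hoff : ∀ c, c ≠ k → |t c * m c k| ≤ |t k| * δ := by
      intro c hc
      have h1 := hm c k
      rw [if_neg hc, sub_zero] at h1
      rw [abs_mul]
      exact mul_le_mul (hk c) h1.le (abs_nonneg _) (abs_nonneg _)
    have h5 := hsum k
    rw [Fintype.sum_eq_add_sum_compl k] at h5
    have h6 : |t k * m k k| = |∑ c ∈ {k}ᶜ, t c * m c k| := by
      have : t k * m k k = - ∑ c ∈ {k}ᶜ, t c * m c k := by linarith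
      rw [this, abs_neg]
    have h7 : |∑ c ∈ {k}ᶜ, t c * m c k| ≤ ∑ c ∈ ({k} : Finset (Fin 3))ᶜ, |t k| * δ :=
      (Finset.abs_sum_le_sum_abs _ _).trans (Finset.sum_le_sum fun c hc => by
        apply hoff
        simpa using hc)
    have h8 : ∑ c ∈ ({k} : Finset (Fin 3))ᶜ, |t k| * δ = 2 * (|t k| * δ) := by
      rw [Finset.sum_const, Finset.card_compl]
      simp
    rw [h8, ← h6, abs_mul] at h7
    nlinarith
  intro c
  have h1 := hk c
  simp only [key] at h1
  exact abs_nonpos_iff.1 h1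

/-- All equations hold. -/
structure Good (a : Par n) : Prop where
  pos : ∀ c, 0 < kap (ty c) * nrm (a.2.2.1 c)
  gen : ∀ c, ψ B hb a (FreeGroup.of (base c)) = ex (ty c) (a.2.2.1 c) a.1
  rel : ∀ k, val B hb a (B.u k * FreeGroup.of (B.s k) * (B.u k)⁻¹ * (FreeGroup.of k)⁻¹) = 1
  long : ∀ c, ψ B hb a (B.longitude (base c)) =
    ex (ty c) (a.2.2.1 c) (-(a.1 ^ 2 * a.2.1 c))
  det : ∀ v, (ψ B hb a v).det = 1

theorem det_ex {h : Bool} {y : Fin 3 → ℝ} (hy : 0 < kap h * nrm y) (τ : ℝ) :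
    (ex h y τ).det = 1 := by
  rw [Matrix.det_fin_two]; exact ex_det hy τ

theorem det_all {a : Par n} (hB : Basic B hb a) (v : FreeGroup (Fin n)) :
    (ψ B hb a v).det = 1 := by
  have hrel : ∀ k, (∀ c, B.s k ≠ base c) →
      val B hb a (B.u k) * val B hb a (FreeGroup.of (B.s k)) * (val B hb a (B.u k))⁻¹ =
        val B hb a (FreeGroup.of k) := by
    intro j hj
    have h1 := hB.rel (B.s j) (fun ⟨c, hc⟩ => hj c hc)
    have h2 : B.s⁻¹ (B.s j) = j := by simp
    rw [Pool.Agent.H42.ML.rel, h2, map_mul, map_mul, map_mul, map_inv, map_inv,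
      mul_inv_eq_one] at h1
    exact h1
  have hgen : ∀ k, (ψ B hb a (FreeGroup.of k)).det = 1 := by
    intro k
    have h1 := B.V_conj hb (val B hb a) hrel k
    have h2 : ψ B hb a (B.V hb k) * ψ B hb a (FreeGroup.of k) * ψ B hb a (B.V hb k)⁻¹ =
        ψ B hb a (FreeGroup.of (base (B.comp hb k))) := by
      rw [← map_mul, ← map_mul]
      show ((val B hb a _ : Matˣ) : Mat) = ((val B hb a _ : Matˣ) : Mat)
      rw [map_mul, map_mul, map_inv, h1]
    have h3 := congrArg Matrix.det h2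
    rw [Matrix.det_mul, Matrix.det_mul, hB.gen, det_ex (hB.pos _)] at h3
    have h4 := congrArg Matrix.det (ψ_inv B hb a (B.V hb k))
    rw [Matrix.det_mul, Matrix.det_one] at h4
    calc (ψ B hb a (FreeGroup.of k)).det
        = (ψ B hb a (FreeGroup.of k)).det *
          ((ψ B hb a (B.V hb k)).det * (ψ B hb a (B.V hb k)⁻¹).det) := by rw [h4, mul_one]
      _ = 1 := by rw [← h3]; ring
  induction v using FreeGroup.induction_on with
  | C1 => simp
  | of k => exact hgen k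
  | inv_of k ih =>
    have h4 := congrArg Matrix.det (ψ_inv B hb a (FreeGroup.of k))
    rw [Matrix.det_mul, Matrix.det_one, hgen k, one_mul] at h4
    exact h4
  | mul v w hv hw => rw [map_mul, Matrix.det_mul, hv, hw, one_mul]

theorem good_ev {μ : ℤ} (hμ : B.HasTripleLinking base μ) (hd : ∀ c, d c ≠ 0) :
    ∀ᶠ a in 𝓝 (pt n ρ d), a.1 ≠ 0 → Fm B hb hd ρ a = 0 → Good B hb a := by
  obtain ⟨δ, hδ⟩ : ∃ δ : ℝ, δ = min |d 0| (min |d 1| |d 2|) / 4 := ⟨_, rfl⟩
  have hδ0 : 0 < δ := by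
    rw [hδ]
    have : 0 < min |d 0| (min |d 1| |d 2|) :=
      lt_min (abs_pos.2 (hd 0)) (lt_min (abs_pos.2 (hd 1)) (abs_pos.2 (hd 2)))
    linarith
  have hδ1 : ∀ c, 4 * δ ≤ |d c| := by
    intro c
    have h1 : 4 * δ = min |d 0| (min |d 1| |d 2|) := by rw [hδ]; ring
    rw [h1]
    fin_cases c
    · exact min_le_left _ _
    · exact (min_le_right _ _).trans (min_le_left _ _)
    · exact (min_le_right _ _).trans (min_le_right _ _)
  have hm : ∀ᶠ a in 𝓝 (pt n ρ d), ∀ c c', |mcoef B hb c c' a -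
      (if c = c' then (![2, -2, -2] : Fin 3 → ℝ) c * d c else 0)| < δ := by
    refine eventually_all.2 fun c => eventually_all.2 fun c' => ?_
    have h1 := (mcoef_tendsto (ρ := ρ) B hb hd c c').sub_const
      (if c = c' then (![2, -2, -2] : Fin 3 → ℝ) c * d c else 0)
    rw [sub_self] at h1
    have h2 := h1.abs
    rw [abs_zero] at h2
    exact h2.eventually_lt_const hδ0
  have htr : ∀ᶠ a in 𝓝 (pt n ρ d), ∀ c, 0 < (ψ B hb a (B.longitude (base c))) 0 0 +
      (1 + a.1 ^ 2 • G c a : Mat) 1 1 := by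
    refine eventually_all.2 fun c => ?_
    have h1 := ((entry_cont 0 0).tendsto _).comp
      (ψ_tendsto (ρ := ρ) B hb hd (B.longitude (base c)))
    have h2 : Tendsto (fun a : Par n => (1 + a.1 ^ 2 • G c a : Mat)) (𝓝 (pt n ρ d)) (𝓝 1) := by
      have h3 : ContDiffAt ℝ 1 (fun a : Par n => (1 + a.1 ^ 2 • G c a : Mat)) (pt n ρ d) :=
        contDiffAt_const.add ((eps_cont.pow 2).smul (G_cont hd c))
      have h4 := h3.continuousAt.tendsto
      have h5 : (1 + (pt n ρ d).1 ^ 2 • G c (pt n ρ d) : Mat) = 1 := by simp [pt]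
      rwa [h5] at h4
    have h3 := ((entry_cont 1 1).tendsto _).comp h2
    have h4 := h1.add h3
    refine h4.eventually_const_lt ?_
    simp
  filter_upwards [basic_ev (ρ := ρ) B hb hμ hd, hm, htr] with a h1 h2 h3 ha0 hF
  have hB := h1 hF
  choose P hP using hB.long
  have hsum := sum_eq B hb hB ha0 hP
  have ht : ∀ c, coord (P c) (c + 1) = 0 := by
    refine max_elim hδ0 hδ1 (m := fun c c' => mcoef B hb c c' a) h2 fun c' => ?_
    have h4 := congrArg (fun M => coordL M (c' + 2)) hsum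
    simp only [map_sum, Finset.sum_apply, map_zero, Pi.zero_apply, map_smul, Pi.smul_apply,
      smul_eq_mul, coordL_apply] at h4
    rw [← h4]
    refine Finset.sum_congr rfl fun c _ => ?_
    simp only [mcoef]
    ring
  have hlong : ∀ c, ψ B hb a (B.longitude (base c)) =
      ex (ty c) (a.2.2.1 c) (-(a.1 ^ 2 * a.2.1 c)) := by
    intro c
    have e1 := (hP c).1
    have e2 := eq_of_coord (hP c).2.1 (hP c).2.2
    rw [ht c, zero_smul, add_zero] at e2
    obtain ⟨r, hr⟩ : ∃ r : ℝ, r = a.1 ^ 2 * ((P c 0 0 + P c 1 1) / 2) := ⟨_, rfl⟩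
    have e3 : a.1 ^ 2 • P c = r • (1 : Mat) := by
      rw [hr, mul_smul, ← e2]
    rw [e3] at e1
    have hposc := hB.pos c
    have e4 : ex (ty c) (a.2.2.1 c) (-(a.1 ^ 2 * a.2.1 c)) = 1 + a.1 ^ 2 • G c a := by
      rw [ex_eq hposc, G, Yc, smul_add, smul_neg, smul_smul, smul_smul, neg_smul,
        show (-(a.1 ^ 2 * a.2.1 c)) ^ 2 = a.1 ^ 2 * (a.1 ^ 2 * a.2.1 c ^ 2) by ring]
      abel
    have e5 := det_all B hb hB (B.longitude (base c))
    have e6 := det_ex hposc (-(a.1 ^ 2 * a.2.1 c))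
    have e7 := h3 c
    rw [← e4] at e7
    set F := ex (ty c) (a.2.2.1 c) (-(a.1 ^ 2 * a.2.1 c)) with hFdef
    have g00 : (ψ B hb a (B.longitude (base c))) 0 0 = F 0 0 + r := by rw [e1]; simp
    have g01 : (ψ B hb a (B.longitude (base c))) 0 1 = F 0 1 := by rw [e1]; simp
    have g10 : (ψ B hb a (B.longitude (base c))) 1 0 = F 1 0 := by rw [e1]; simp
    have g11 : (ψ B hb a (B.longitude (base c))) 1 1 = F 1 1 + r := by rw [e1]; simp
    rw [Matrix.det_fin_two, g00, g01, g10, g11] at e5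
    rw [Matrix.det_fin_two] at e6
    rw [g00] at e7
    have e8 : r * (F 0 0 + r + F 1 1) = 0 := by linear_combination e5 - e6
    have e9 : r = 0 := by
      rcases mul_eq_zero.1 e8 with h | h
      · exact h
      · linarith
    rw [e1, e9, zero_smul, add_zero]
  have hrel : ∀ k, (∀ c, B.s k ≠ base c) →
      val B hb a (B.u k) * val B hb a (FreeGroup.of (B.s k)) * (val B hb a (B.u k))⁻¹ =
        val B hb a (FreeGroup.of k) := by
    intro j hj
    have k1 := hB.rel (B.s j) (fun ⟨c, hc⟩ => hj c hc)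
    have k2 : B.s⁻¹ (B.s j) = j := by simp
    rw [Pool.Agent.H42.ML.rel, k2, map_mul, map_mul, map_mul, map_inv, map_inv,
      mul_inv_eq_one] at k1
    exact k1
  refine ⟨hB.pos, hB.gen, fun k => ?_, hlong, det_all B hb hB⟩
  rw [map_mul, map_mul, map_mul, map_inv, map_inv, mul_inv_eq_one]
  by_cases hk : ∀ c, B.s k ≠ base c
  · exact hrel k hk
  · push Not at hk
    obtain ⟨c, hc⟩ := hk
    refine B.close_rel hb (val B hb a) hrel hc ?_
    apply Units.ext
    show ψ B hb a (B.longitude (base c)) * ψ B hb a (FreeGroup.of (base c)) =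
      ψ B hb a (FreeGroup.of (base c)) * ψ B hb a (B.longitude (base c))
    rw [hlong c, hB.gen c]
    exact ex_comm _ _ _ _

end Pool.Agent.H42.ML
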