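import Pool.Agent.H42.ML.Frame
import Pool.Agent.H42.ML.Exp
import Pool.Agent.H42.ML.Braid

set_option autoImplicit false

/-!
# Smooth families of elements of one-parameter groups
-/

namespace Pool.Agent.H42.ML

open Pool.Agent.H42.LO Filter Topology
open scoped Matrix.Norms.Operator

theorem second_order {f : ℝ → ℝ} (hf : AnalyticAt ℝ f 0) :
    ∃ g : ℝ → ℝ, ContDiffAt ℝ 1 g 0 ∧ ∀ z, f z = f 0 + z * deriv f 0 + z ^ 2 * g z := by
  obtain ⟨p, hp⟩ := hf
  have h1 := hp.has_fpower_series_dslope_fslope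
  have h2 := h1.has_fpower_series_dslope_fslope
  refine ⟨dslope (dslope f 0) 0, h2.analyticAt.contDiffAt, fun z => ?_⟩
  have e1 := sub_smul_dslope f 0 z
  have e2 := sub_smul_dslope (dslope f 0) 0 z
  rw [dslope_same] at e2
  simp only [sub_zero, smul_eq_mul] at e1 e2
  linear_combination z * (-1) * e2 - e1

theorem exists_gc (h : Bool) : ∃ g : ℝ → ℝ, ContDiffAt ℝ 1 g 0 ∧
    ∀ z, cs h z = 1 + z ^ 2 * g z := by
  cases h with
  | true =>
    obtain ⟨g, hg, hz⟩ := second_order (f := Real.cosh) (Real.analyticAt_cosh)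
    refine ⟨g, hg, fun z => ?_⟩
    have h1 := hz z
    rw [Real.cosh_zero, Real.deriv_cosh, Real.sinh_zero] at h1
    simp only [cs, if_true]
    linarith
  | false =>
    obtain ⟨g, hg, hz⟩ := second_order (f := Real.cos) (Real.analyticAt_cos)
    refine ⟨g, hg, fun z => ?_⟩
    have h1 := hz z
    rw [Real.cos_zero, Real.deriv_cos, Real.sin_zero] at h1
    simp only [cs, Bool.false_eq_true, if_false]
    linarith

theorem exists_gs (h : Bool) : ∃ g : ℝ → ℝ, ContDiffAt ℝ 1 g 0 ∧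
    ∀ z, sn h z = z + z ^ 2 * g z := by
  cases h with
  | true =>
    obtain ⟨g, hg, hz⟩ := second_order (f := Real.sinh) (Real.analyticAt_sinh)
    refine ⟨g, hg, fun z => ?_⟩
    have h1 := hz z
    rw [Real.sinh_zero, Real.deriv_sinh, Real.cosh_zero] at h1
    simp only [sn, if_true]
    linarith
  | false =>
    obtain ⟨g, hg, hz⟩ := second_order (f := Real.sin) (Real.analyticAt_sin)
    refine ⟨g, hg, fun z => ?_⟩
    have h1 := hz z
    rw [Real.sin_zero, Real.deriv_sin, Real.cos_zero] at h1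
    simp only [sn, Bool.false_eq_true, if_false]
    linarith

/-- The second order remainder of `cs`. -/
noncomputable def gc (h : Bool) : ℝ → ℝ := (exists_gc h).choose
theorem gc_cont (h : Bool) : ContDiffAt ℝ 1 (gc h) 0 := (exists_gc h).choose_spec.1
theorem gc_eq (h : Bool) (z : ℝ) : cs h z = 1 + z ^ 2 * gc h z := (exists_gc h).choose_spec.2 z

/-- The second order remainder of `sn`. -/
noncomputable def gs (h : Bool) : ℝ → ℝ := (exists_gs h).choose
theorem gs_cont (h : Bool) : ContDiffAt ℝ 1 (gs h) 0 := (exists_gs h).choose_spec.1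
theorem gs_eq (h : Bool) (z : ℝ) : sn h z = z + z ^ 2 * gs h z := (exists_gs h).choose_spec.2 z

/-- The second order remainder of the exponential. -/
noncomputable def RE (h : Bool) (y : Fin 3 → ℝ) (τ : ℝ) : Mat :=
  (len h y ^ 2 * gc h (τ * len h y)) • (1 : Mat) + (len h y * gs h (τ * len h y)) • Yv y

theorem ex_eq {h : Bool} {y : Fin 3 → ℝ} (hy : 0 < kap h * nrm y) (τ : ℝ) :
    ex h y τ = 1 + τ • Yv y + τ ^ 2 • RE h y τ := by
  have hl := (len_pos hy).ne'
  have e1 : sn h (τ * len h y) / len h y = τ + τ ^ 2 * (len h y * gs h (τ * len h y)) := by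
    rw [gs_eq]; field_simp
  rw [ex, RE, e1, gc_eq, smul_add, smul_smul, smul_smul, add_smul, add_smul, one_smul]
  rw [show (τ * len h y) ^ 2 * gc h (τ * len h y) =
    τ ^ 2 * (len h y ^ 2 * gc h (τ * len h y)) by ring]
  abel

section

variable {P : Type*} [NormedAddCommGroup P] [NormedSpace ℝ P] {a₀ : P}

theorem Yv_cont {y : P → Fin 3 → ℝ} (hy : ContDiffAt ℝ 1 y a₀) :
    ContDiffAt ℝ 1 (fun a => Yv (y a)) a₀ := by
  have h : ∀ i, ContDiffAt ℝ 1 (fun a => y a i) a₀ := fun i => contDiffAt_pi.1 hy i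
  have e : (fun a => Yv (y a)) = fun a => y a 0 • (!![1, 0; 0, -1] : Mat) +
      y a 1 • (!![0, 1; 1, 0] : Mat) + y a 2 • (!![0, -1; 1, 0] : Mat) := by
    funext a
    apply mat_ext <;> simp [sub_eq_add_neg]
  rw [e]
  exact (((h 0).smul contDiffAt_const).add ((h 1).smul contDiffAt_const)).add
    ((h 2).smul contDiffAt_const)

theorem RE_cont {h : Bool} {y : P → Fin 3 → ℝ} {τ : P → ℝ} (hy : ContDiffAt ℝ 1 y a₀)
    (hτ : ContDiffAt ℝ 1 τ a₀) (hτ0 : τ a₀ = 0) (hpos : 0 < kap h * nrm (y a₀)) :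
    ContDiffAt ℝ 1 (fun a => RE h (y a) (τ a)) a₀ := by
  have hi : ∀ i, ContDiffAt ℝ 1 (fun a => y a i) a₀ := fun i => contDiffAt_pi.1 hy i
  have hn : ContDiffAt ℝ 1 (fun a => kap h * nrm (y a)) a₀ :=
    contDiffAt_const.mul ((((hi 0).pow 2).add ((hi 1).pow 2)).sub ((hi 2).pow 2))
  have hl : ContDiffAt ℝ 1 (fun a => len h (y a)) a₀ := hn.sqrt hpos.ne'
  have hz : ContDiffAt ℝ 1 (fun a => τ a * len h (y a)) a₀ := hτ.mul hl
  have hz0 : τ a₀ * len h (y a₀) = 0 := by rw [hτ0, zero_mul]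
  have hc : ContDiffAt ℝ 1 (fun a => gc h (τ a * len h (y a))) a₀ := by
    have := gc_cont h
    rw [← hz0] at this
    exact this.comp a₀ hz
  have hs : ContDiffAt ℝ 1 (fun a => gs h (τ a * len h (y a))) a₀ := by
    have := gs_cont h
    rw [← hz0] at this
    exact this.comp a₀ hz
  exact (((hl.pow 2).mul hc).smul contDiffAt_const).add ((hl.mul hs).smul (Yv_cont hy))

end

end Pool.Agent.H42.ML
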