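import Pool.Agent.H42.ML.Map

set_option autoImplicit false

/-!
# Solutions of the equations
-/

namespace Pool.Agent.H42.ML

open Pool.Agent.H42.LO Filter Topology
open scoped Matrix.Norms.Operator commutatorElement

/-- The bracket in coordinates. -/
def br (y z : Fin 3 → ℝ) : Fin 3 → ℝ :=
  ![2 * (y 1 * z 2 - y 2 * z 1), 2 * (y 2 * z 0 - y 0 * z 2), - 2 * (y 0 * z 1 - y 1 * z 0)]

theorem br_line (y y' z z' : Fin 3 → ℝ) (t : ℝ) (i : Fin 3) :
    br (y + t • z) (y' + t • z') i =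
      br y y' i + (br z y' i + br y z' i) * t + br z z' i * t ^ 2 := by
  fin_cases i <;> simp [br] <;> ring

variable {n : ℕ} (B : Braid n) {base : Fin 3 → Fin n} (hb : B.IsBase base)
variable {ρ d : Fin 3 → ℝ}

/-- The equations at `ε = 0`. -/
noncomputable def q0 (μ : ℤ) (a : Par n) (c i : Fin 3) : ℝ :=
  μ * br (a.2.2.1 (c + 1)) (a.2.2.1 (c + 2)) i +
    coord (chi a.2.2.2 (B.longitude (base c))) i + a.2.1 c * a.2.2.1 c i

theorem psi_zero {μ : ℤ} (hμ : B.HasTripleLinking base μ) (hd : ∀ c, d c ≠ 0) (c : Fin 3) :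
    ∀ᶠ a in 𝓝 (pt n ρ d), a.1 = 0 → ∀ i, coord (Psi B hb hd ρ c a) i =
      q0 B (base := base) μ a c i := by
  filter_upwards [Rem_zero (ρ := ρ) B hb hd (B.longitude (base c))] with a ha h0 i
  rw [Psi, ha h0, φ0_longitude B hb hμ, G, h0]
  simp only [Yc]
  rw [Yv_bracket]
  have e1 : (μ • Yv ![2 * (a.2.2.1 (c + 1) 1 * a.2.2.1 (c + 2) 2 -
      a.2.2.1 (c + 1) 2 * a.2.2.1 (c + 2) 1), 2 * (a.2.2.1 (c + 1) 2 * a.2.2.1 (c + 2) 0 -
      a.2.2.1 (c + 1) 0 * a.2.2.1 (c + 2) 2), - 2 * (a.2.2.1 (c + 1) 0 * a.2.2.1 (c + 2) 1 -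
      a.2.2.1 (c + 1) 1 * a.2.2.1 (c + 2) 0)] : Mat) =
      (μ : ℝ) • Yv (br (a.2.2.1 (c + 1)) (a.2.2.1 (c + 2))) := by
    rw [← Int.cast_smul_eq_zsmul ℝ]; rfl
  rw [e1]
  simp only [ne_eq, OfNat.ofNat_ne_zero, not_false_eq_true, zero_pow, zero_mul, zero_smul,
    add_zero, sub_neg_eq_add, coord_add, coord_smul, coord_Yv, Pi.add_apply, Pi.smul_apply,
    smul_eq_mul, q0]

theorem rem_rel_zero (hd : ∀ c, d c ≠ 0) {k : Fin n} (hk : ¬ ∃ c, k = base c) :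
    ∀ᶠ a in 𝓝 (pt n ρ d), a.1 = 0 → Rem B hb hd ρ (rel B k) a =
      a.2.2.2 k - a.2.2.2 (B.s⁻¹ k) := by
  filter_upwards [Rem_zero (ρ := ρ) B hb hd (rel B k)] with a ha h0
  rw [ha h0]
  have hs : B.s (B.s⁻¹ k) = k := by simp
  have h1 := x0_rel B hb a (B.s⁻¹ k) (fun c hc => hk ⟨c, by rw [← hs, hc]⟩)
  rw [hs] at h1
  have h2 : φ0 B hb a (rel B k) = 1 := by
    rw [rel, map_mul, map_mul, map_mul, map_inv, map_inv, h1, mul_inv_cancel]
  rw [h2]
  simp [rel, sub_eq_add_neg]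

open Classical in
theorem Fm_zero {μ : ℤ} (hμ : B.HasTripleLinking base μ) (hd : ∀ c, d c ≠ 0) :
    ∀ᶠ a in 𝓝 (pt n ρ d), a.1 = 0 → Fm B hb hd ρ a =
      (fun c => q0 B (base := base) μ a c c, fun c => q0 B (base := base) μ a c (c + 2),
        fun k => if ∃ c, k = base c then a.2.2.2 k else a.2.2.2 k - a.2.2.2 (B.s⁻¹ k)) := by
  have h1 : ∀ᶠ a in 𝓝 (pt n ρ d), ∀ c, a.1 = 0 → ∀ i, coord (Psi B hb hd ρ c a) i =
      q0 B (base := base) μ a c i := eventually_all.2 fun c => psi_zero B hb hμ hd c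
  have h2 : ∀ᶠ a in 𝓝 (pt n ρ d), ∀ k, (¬ ∃ c, k = base c) → a.1 = 0 →
      Rem B hb hd ρ (rel B k) a = a.2.2.2 k - a.2.2.2 (B.s⁻¹ k) := by
    refine eventually_all.2 fun k => ?_
    by_cases hk : ∃ c, k = base c
    · exact Eventually.of_forall fun a h => absurd hk h
    · filter_upwards [rem_rel_zero (ρ := ρ) B hb hd hk] with a ha _ h0
      exact ha h0
  filter_upwards [h1, h2] with a k1 k2 h0
  refine Prod.ext ?_ (Prod.ext ?_ ?_)
  · funext c; exact k1 c h0 c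
  · funext c; exact k1 c h0 (c + 2)
  · funext k
    simp only [Fm]
    by_cases hk : ∃ c, k = base c
    · rw [if_pos hk, if_pos hk]
    · rw [if_neg hk, if_neg hk, k2 k hk h0]

/-- The derivative of the first two parts of the equations. -/
noncomputable def dq (μ : ℤ) (ρ d : Fin 3 → ℝ) (z : Fin 3 → Fin 3 → ℝ) (b : Fin n → Mat)
    (c i : Fin 3) : ℝ :=
  μ * (br (z (c + 1)) (y₀ d (c + 2)) i + br (y₀ d (c + 1)) (z (c + 2)) i) +
    coord (chi b (B.longitude (base c))) i + ρ c * z c i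

theorem quad_deriv {f : ℝ → ℝ} {p q r : ℝ} (h : ∀ t, f t = p + q * t + r * t ^ 2) :
    HasDerivAt f q 0 := by
  have e : f = fun t => p + q * t + r * t ^ 2 := funext h
  rw [e]
  have h1 : HasDerivAt (fun t : ℝ => p + q * t + r * t ^ 2) (0 + q * 1 + r * (2 * 0)) 0 := by
    refine ((hasDerivAt_const _ _).add ((hasDerivAt_id _).const_mul q)).add ?_
    have := (hasDerivAt_pow 2 (0 : ℝ)).const_mul r
    simpa using this
  simpa using h1

open Classical in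
theorem line_deriv {μ : ℤ} (hμ : B.HasTripleLinking base μ) (hd : ∀ c, d c ≠ 0)
    (z : Fin 3 → Fin 3 → ℝ) (b : Fin n → Mat) :
    HasDerivAt (fun t : ℝ => Fm B hb hd ρ (pt n ρ d + t • ((0, 0, z, b) : Par n)))
      (fun c => dq B (base := base) μ ρ d z b c c, fun c => dq B (base := base) μ ρ d z b c (c + 2),
        fun k => if ∃ c, k = base c then b k else b k - b (B.s⁻¹ k)) 0 := by
  have hc : Tendsto (fun t : ℝ => pt n ρ d + t • ((0, 0, z, b) : Par n)) (𝓝 0)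
      (𝓝 (pt n ρ d)) := by
    have : Continuous (fun t : ℝ => pt n ρ d + t • ((0, 0, z, b) : Par n)) := by fun_prop
    have h := this.tendsto 0
    simpa using h
  have hev := hc.eventually (Fm_zero (ρ := ρ) B hb hμ hd)
  have hfst : ∀ t : ℝ, (pt n ρ d + t • ((0, 0, z, b) : Par n)).1 = 0 := by
    intro t; simp [pt]
  have e1 : ∀ t : ℝ, (pt n ρ d + t • ((0, 0, z, b) : Par n)).2.1 = ρ := by
    intro t; simp [pt]
  have e2 : ∀ t : ℝ, (pt n ρ d + t • ((0, 0, z, b) : Par n)).2.2.1 = y₀ d + t • z := by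
    intro t; simp [pt]
  have e3 : ∀ t : ℝ, (pt n ρ d + t • ((0, 0, z, b) : Par n)).2.2.2 = t • b := by
    intro t; simp [pt]
  have hq : ∀ c i : Fin 3, HasDerivAt (fun t : ℝ => q0 B (base := base) μ
      (pt n ρ d + t • ((0, 0, z, b) : Par n)) c i) (dq B (base := base) μ ρ d z b c i) 0 := by
    intro c i
    refine quad_deriv (p := μ * br (y₀ d (c + 1)) (y₀ d (c + 2)) i + ρ c * y₀ d c i)
      (r := μ * br (z (c + 1)) (z (c + 2)) i) fun t => ?_
    rw [q0, e1, e2, e3, chi_smul, coord_smul]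
    have h1 := br_line (y₀ d (c + 1)) (y₀ d (c + 2)) (z (c + 1)) (z (c + 2)) t i
    have h2 : ∀ c', (y₀ d + t • z) c' = y₀ d c' + t • z c' := fun c' => rfl
    rw [h2, h2, h2, h1, dq]
    simp only [Pi.add_apply, Pi.smul_apply, smul_eq_mul]
    ring
  have main : HasDerivAt (fun t : ℝ => ((fun c => q0 B (base := base) μ
      (pt n ρ d + t • ((0, 0, z, b) : Par n)) c c, fun c => q0 B (base := base) μ
      (pt n ρ d + t • ((0, 0, z, b) : Par n)) c (c + 2),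
        fun k => if ∃ c, k = base c then (t • b) k else (t • b) k - (t • b) (B.s⁻¹ k)) :
        (Fin 3 → ℝ) × (Fin 3 → ℝ) × (Fin n → Mat)))
      (fun c => dq B (base := base) μ ρ d z b c c, fun c => dq B (base := base) μ ρ d z b c (c + 2),
        fun k => if ∃ c, k = base c then b k else b k - b (B.s⁻¹ k)) 0 := by
    refine HasDerivAt.prodMk ?_ (HasDerivAt.prodMk ?_ ?_)
    · exact hasDerivAt_pi.2 fun c => hq c c
    · exact hasDerivAt_pi.2 fun c => hq c (c + 2)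
    · refine hasDerivAt_pi.2 fun k => ?_
      have hs : ∀ j, HasDerivAt (fun t : ℝ => (t • b) j) (b j) 0 := by
        intro j
        have := (hasDerivAt_id (0 : ℝ)).smul_const (b j)
        rw [one_smul] at this
        exact this
      by_cases hk : ∃ c, k = base c
      · simp only [if_pos hk]; exact hs k
      · simp only [if_neg hk]; exact (hs k).sub (hs _)
  refine main.congr_of_eventuallyEq ?_
  filter_upwards [hev] with t ht
  rw [ht (hfst t), e3]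

include hb in
open Classical in
/-- The linear system for the corrections. -/
theorem solve_b (e : Fin n → Mat) : ∃ b : Fin n → Mat,
    (fun k => if ∃ c, k = base c then b k else b k - b (B.s⁻¹ k)) = e := by
  refine ⟨fun k => ∑ j ∈ Finset.range (B.idx hb k + 1), e ((B.s ^ j) (base (B.comp hb k))), ?_⟩
  funext k
  by_cases hk : ∃ c, k = base c
  · rw [if_pos hk]
    obtain ⟨c, rfl⟩ := hk
    simp [B.idx_base hb, B.comp_base hb]
  · rw [if_neg hk]
    have hs : B.s (B.s⁻¹ k) = k := by simp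
    have hnb : ∀ c, B.s (B.s⁻¹ k) ≠ base c := fun c hc => hk ⟨c, by rw [← hs, hc]⟩
    have h1 := B.idx_s hb hnb
    have h2 := B.comp_s hb (B.s⁻¹ k)
    rw [hs] at h1 h2
    have h3 : ∑ j ∈ Finset.range (B.idx hb k + 1), e ((B.s ^ j) (base (B.comp hb k))) =
        ∑ j ∈ Finset.range (B.idx hb (B.s⁻¹ k) + 1),
          e ((B.s ^ j) (base (B.comp hb (B.s⁻¹ k)))) + e k := by
      rw [Finset.sum_range_succ, B.idx_spec hb k, h1, h2]
    show _ - _ = _
    simp only [h3, add_sub_cancel_left]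

theorem solve_z {μ : ℤ} (hd : ∀ c, d c ≠ 0) (hρ : ∀ c, ρ c ≠ 0)
    (h0 : 2 * μ * (d 1 * d 2) = - ρ 0 * d 0) (h1 : 2 * μ * (d 2 * d 0) = - ρ 1 * d 1)
    (h2 : 2 * μ * (d 0 * d 1) = ρ 2 * d 2) (b : Fin n → Mat) (g₁ g₂ : Fin 3 → ℝ) :
    ∃ z : Fin 3 → Fin 3 → ℝ, (∀ c, dq B (base := base) μ ρ d z b c c = g₁ c) ∧
      ∀ c, dq B (base := base) μ ρ d z b c (c + 2) = g₂ c := by
  obtain ⟨k₁, hk₁⟩ : ∃ k : Fin 3 → ℝ, k = fun c =>
    (g₁ c - coord (chi b (B.longitude (base c))) c) / (ρ c * d c) := ⟨_, rfl⟩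
  obtain ⟨k₂, hk₂⟩ : ∃ k : Fin 3 → ℝ, k = fun c =>
    (g₂ c - coord (chi b (B.longitude (base c))) (c + 2)) / ρ c := ⟨_, rfl⟩
  have e₁ : ∀ c, g₁ c = coord (chi b (B.longitude (base c))) c + ρ c * d c * k₁ c := by
    intro c
    rw [hk₁]
    have := hd c
    have := hρ c
    field_simp
    ring
  have e₂ : ∀ c, g₂ c = coord (chi b (B.longitude (base c))) (c + 2) + ρ c * k₂ c := by
    intro c
    rw [hk₂]
    have := hρ c
    field_simp
    ring
  refine ⟨![![d 0 * ((k₁ 0 - (k₁ 0 + k₁ 1 + k₁ 2)) / 2), 0, k₂ 0],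
    ![k₂ 1, d 1 * ((k₁ 1 - (k₁ 0 + k₁ 1 + k₁ 2)) / 2), 0],
    ![0, k₂ 2, d 2 * ((k₁ 2 - (k₁ 0 + k₁ 1 + k₁ 2)) / 2)]], ?_, ?_⟩
  · intro c
    rw [e₁, dq]
    fin_cases c
    · simp [br, y₀]
      linear_combination ((k₁ 1 + k₁ 2) / 2 - (k₁ 0 + k₁ 1 + k₁ 2)) * h0
    · simp [br, y₀]
      linear_combination ((k₁ 2 + k₁ 0) / 2 - (k₁ 0 + k₁ 1 + k₁ 2)) * h1
    · simp [br, y₀]
      linear_combination (-((k₁ 0 + k₁ 1) / 2 - (k₁ 0 + k₁ 1 + k₁ 2))) * h2
  · intro c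
    rw [e₂, dq]
    fin_cases c
    · simp [br, y₀]
    · simp [br, y₀]
    · simp [br, y₀]

/-- Solutions exist for all parameters close to the base point. -/
theorem exists_solution {μ : ℤ} (hμ : B.HasTripleLinking base μ) (hd : ∀ c, d c ≠ 0)
    (hρ : ∀ c, ρ c ≠ 0)
    (h0 : 2 * μ * (d 1 * d 2) = - ρ 0 * d 0) (h1 : 2 * μ * (d 2 * d 0) = - ρ 1 * d 1)
    (h2 : 2 * μ * (d 0 * d 1) = ρ 2 * d 2) {U : Set (Par n)} (hU : U ∈ 𝓝 (pt n ρ d)) :
    ∀ᶠ x in 𝓝 ((0, ρ) : ℝ × (Fin 3 → ℝ)), ∃ a ∈ U, a.1 = x.1 ∧ a.2.1 = x.2 ∧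
      Fm B hb hd ρ a = 0 := by
  classical
  set Φ : Par n → (ℝ × (Fin 3 → ℝ)) × ((Fin 3 → ℝ) × (Fin 3 → ℝ) × (Fin n → Mat)) :=
    fun a => ((a.1, a.2.1), Fm B hb hd ρ a) with hΦ
  have hFs : HasStrictFDerivAt (fun a => Fm B hb hd ρ a)
      (fderiv ℝ (fun a => Fm B hb hd ρ a) (pt n ρ d)) (pt n ρ d) :=
    (Fm_cont B hb hd).hasStrictFDerivAt one_ne_zero
  set L := fderiv ℝ (fun a => Fm B hb hd ρ a) (pt n ρ d) with hL
  set L' : Par n →L[ℝ] (ℝ × (Fin 3 → ℝ)) × ((Fin 3 → ℝ) × (Fin 3 → ℝ) × (Fin n → Mat)) :=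
    (((ContinuousLinearMap.fst ℝ ℝ _).prod
      ((ContinuousLinearMap.fst ℝ (Fin 3 → ℝ) _).comp (ContinuousLinearMap.snd ℝ ℝ _))).prod L)
    with hL'
  have hΦs : HasStrictFDerivAt Φ L' (pt n ρ d) := by
    refine HasStrictFDerivAt.prodMk (HasStrictFDerivAt.prodMk ?_ ?_) hFs
    · exact hasStrictFDerivAt_fst
    · exact hasStrictFDerivAt_fst.comp _ hasStrictFDerivAt_snd
  have hLv : ∀ (z : Fin 3 → Fin 3 → ℝ) (b : Fin n → Mat), L ((0, 0, z, b) : Par n) =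
      (fun c => dq B (base := base) μ ρ d z b c c, fun c => dq B (base := base) μ ρ d z b c (c + 2),
        fun k => if ∃ c, k = base c then b k else b k - b (B.s⁻¹ k)) := by
    intro z b
    have e1 := line_deriv (ρ := ρ) B hb hμ hd z b
    have e2 : HasDerivAt (fun t : ℝ => Fm B hb hd ρ (pt n ρ d + t • ((0, 0, z, b) : Par n)))
        (L ((0, 0, z, b) : Par n)) 0 := by
      have g1 : HasDerivAt (fun t : ℝ => pt n ρ d + t • ((0, 0, z, b) : Par n))
          ((0, 0, z, b) : Par n) 0 := by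
        have g2 := ((hasDerivAt_id (0 : ℝ)).smul_const ((0, 0, z, b) : Par n)).const_add
          (pt n ρ d)
        rw [one_smul] at g2
        exact g2
      have g3 : HasFDerivAt (fun a => Fm B hb hd ρ a) L
          (pt n ρ d + (0 : ℝ) • ((0, 0, z, b) : Par n)) := by
        rw [zero_smul, add_zero]
        exact hFs.hasFDerivAt
      exact g3.comp_hasDerivAt (0 : ℝ) g1
    exact e2.unique e1
  have hsurj : ∀ g : (Fin 3 → ℝ) × (Fin 3 → ℝ) × (Fin n → Mat), ∃ z b,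
      L ((0, 0, z, b) : Par n) = g := by
    rintro ⟨g₁, g₂, e⟩
    obtain ⟨b, hb'⟩ := solve_b B hb e
    obtain ⟨z, hz1, hz2⟩ := solve_z B (base := base) hd hρ h0 h1 h2 b g₁ g₂
    refine ⟨z, b, ?_⟩
    rw [hLv]
    refine Prod.ext (funext hz1) (Prod.ext (funext hz2) hb')
  have hrange : L'.range = ⊤ := by
    rw [LinearMap.range_eq_top]
    rintro ⟨⟨ε', ρ'⟩, g⟩
    obtain ⟨z, b, hzb⟩ := hsurj (g - L ((ε', ρ', 0, 0) : Par n))
    refine ⟨((ε', ρ', 0, 0) : Par n) + ((0, 0, z, b) : Par n), ?_⟩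
    have e1 : L (((ε', ρ', 0, 0) : Par n) + ((0, 0, z, b) : Par n)) = g := by
      rw [map_add, hzb, add_sub_cancel]
    have e2 : (((ε', ρ', 0, 0) : Par n) + ((0, 0, z, b) : Par n)).1 = ε' := by simp
    have e3 : (((ε', ρ', 0, 0) : Par n) + ((0, 0, z, b) : Par n)).2.1 = ρ' := by simp
    exact Prod.ext (Prod.ext e2 e3) e1
  have hmap := hΦs.map_nhds_eq_of_surj hrange
  have hΦ0 : Φ (pt n ρ d) = ((0, ρ), 0) := by
    have e1 := (Fm_zero (ρ := ρ) B hb hμ hd).self_of_nhds rfl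
    have hz : ∀ c i, (i = c ∨ i = c + 2) → q0 B (base := base) μ (pt n ρ d) c i = 0 := by
      intro c i hi
      have hch : chi (pt n ρ d).2.2.2 (B.longitude (base c)) = 0 := by
        have := chi_smul 0 (0 : Fin n → Mat) (B.longitude (base c))
        rw [zero_smul, zero_smul] at this
        exact this
      rw [q0, hch, coord_zero]
      fin_cases c <;> rcases hi with rfl | rfl <;> simp [pt, br, y₀]
      · linarith
      · linarith
      · linarith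
    refine Prod.ext rfl ?_
    show Fm B hb hd ρ (pt n ρ d) = 0
    rw [e1]
    refine Prod.ext ?_ (Prod.ext ?_ ?_)
    · funext c; exact hz c c (Or.inl rfl)
    · funext c; exact hz c (c + 2) (Or.inr rfl)
    · funext k
      by_cases hk : ∃ c, k = base c
      · simp only [if_pos hk]; rfl
      · simp only [if_neg hk]
        show (0 : Mat) - 0 = 0
        simp
  have himg : Φ '' U ∈ 𝓝 (Φ (pt n ρ d)) := (le_of_eq hmap.symm) (image_mem_map hU)
  have hcont : Tendsto (fun x : ℝ × (Fin 3 → ℝ) => ((x, 0) : (ℝ × (Fin 3 → ℝ)) ×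
      ((Fin 3 → ℝ) × (Fin 3 → ℝ) × (Fin n → Mat)))) (𝓝 (0, ρ)) (𝓝 (Φ (pt n ρ d))) := by
    rw [hΦ0]
    have c1 : Continuous (fun x : ℝ × (Fin 3 → ℝ) => ((x, 0) : (ℝ × (Fin 3 → ℝ)) ×
      ((Fin 3 → ℝ) × (Fin 3 → ℝ) × (Fin n → Mat)))) := by fun_prop
    exact c1.tendsto (0, ρ)
  filter_upwards [hcont himg] with x hx
  obtain ⟨a, haU, ha⟩ := hx
  refine ⟨a, haU, ?_, ?_, ?_⟩
  · exact congrArg (fun w => w.1.1) ha
  · exact congrArg (fun w => w.1.2) ha
  · exact congrArg (fun w => w.2) ha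

end Pool.Agent.H42.ML
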