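import Pool.Agent.H42.ML.Smooth

set_option autoImplicit false

/-!
# The equations of the surgery group near the trivial representation
-/

namespace Pool.Agent.H42.ML

open Pool.Agent.H42.LO Filter Topology
open scoped Matrix.Norms.Operator commutatorElement

/-- The parameter space. -/
abbrev Par (n : ℕ) : Type := ℝ × (Fin 3 → ℝ) × (Fin 3 → Fin 3 → ℝ) × (Fin n → Mat)

/-- The types of the three components: hyperbolic, hyperbolic, elliptic. -/
def ty (c : Fin 3) : Bool := decide (c ≠ 2)

section words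

variable {n : ℕ}

/-- The value of a word under the homomorphism to an additive group. -/
def chi (b : Fin n → Mat) (v : FreeGroup (Fin n)) : Mat :=
  (FreeGroup.lift (fun k => Multiplicative.ofAdd (b k)) v).toAdd

@[simp] theorem chi_one (b : Fin n → Mat) : chi b 1 = 0 := by simp [chi]
@[simp] theorem chi_mul (b : Fin n → Mat) (v w : FreeGroup (Fin n)) :
    chi b (v * w) = chi b v + chi b w := by simp [chi]
@[simp] theorem chi_inv (b : Fin n → Mat) (v : FreeGroup (Fin n)) :
    chi b v⁻¹ = - chi b v := by simp [chi]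
@[simp] theorem chi_of (b : Fin n → Mat) (k : Fin n) : chi b (FreeGroup.of k) = b k := by
  simp [chi]

theorem chi_smul (t : ℝ) (b : Fin n → Mat) (v : FreeGroup (Fin n)) :
    chi (t • b) v = t • chi b v := by
  induction v using FreeGroup.induction_on with
  | C1 => simp
  | of k => show chi (t • b) (FreeGroup.of k) = t • chi b (FreeGroup.of k); simp
  | inv_of k ih =>
    show chi (t • b) (FreeGroup.of k)⁻¹ = t • chi b (FreeGroup.of k)⁻¹; simp
  | mul v w hv hw => rw [chi_mul, chi_mul, hv, hw, smul_add]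

theorem lift_a (x : Fin n → N2 Mat) (v : FreeGroup (Fin n)) :
    (FreeGroup.lift x v).a = chi (fun k => (x k).a) v := by
  induction v using FreeGroup.induction_on with
  | C1 => simp
  | of k => show (FreeGroup.lift x (FreeGroup.of k)).a = chi _ (FreeGroup.of k); simp
  | inv_of k ih =>
    show (FreeGroup.lift x (FreeGroup.of k)⁻¹).a = chi _ (FreeGroup.of k)⁻¹; simp
  | mul v w hv hw => rw [chi_mul, map_mul, N2.mul_a, hv, hw]

theorem lift_shift (x : Fin n → N2 Mat) (b : Fin n → Mat) (v : FreeGroup (Fin n)) :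
    FreeGroup.lift (fun k => (⟨(x k).a, (x k).b + b k⟩ : N2 Mat)) v =
      ⟨(FreeGroup.lift x v).a, (FreeGroup.lift x v).b + chi b v⟩ := by
  induction v using FreeGroup.induction_on with
  | C1 => rw [map_one, map_one, chi_one]; ext <;> simp
  | of k =>
    show FreeGroup.lift _ (FreeGroup.of k) = (⟨(FreeGroup.lift x (FreeGroup.of k)).a,
      (FreeGroup.lift x (FreeGroup.of k)).b + chi b (FreeGroup.of k)⟩ : N2 Mat)
    simp
  | inv_of k ih =>
    show FreeGroup.lift _ (FreeGroup.of k)⁻¹ = (⟨(FreeGroup.lift x (FreeGroup.of k)⁻¹).a,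
      (FreeGroup.lift x (FreeGroup.of k)⁻¹).b + chi b (FreeGroup.of k)⁻¹⟩ : N2 Mat)
    simp only [map_inv, FreeGroup.lift_apply_of, chi_inv, chi_of]
    ext : 1
    · simp
    · simp only [N2.inv_b]; abel
  | mul v w hv hw =>
    rw [map_mul, map_mul, hv, hw, chi_mul]
    ext : 1
    · simp
    · simp only [N2.mul_b]; abel

end words

section system

variable {n : ℕ} (B : Braid n) {base : Fin 3 → Fin n} (hb : B.IsBase base)

/-- The logarithmic derivative of the meridian of the component `c`. -/
def Yc (c : Fin 3) (a : Par n) : Mat := Yv (a.2.2.1 c)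

/-- The first order coefficient of a word. -/
noncomputable def fo (v : FreeGroup (Fin n)) (a : Par n) : Mat :=
  chi (fun k => Yc (B.comp hb k) a) v

/-- The second order expansion of the generators without the correction. -/
noncomputable def x0 (k : Fin n) (a : Par n) : N2 Mat :=
  ⟨Yc (B.comp hb k) a, RE (ty (B.comp hb k)) (a.2.2.1 (B.comp hb k)) a.1 +
    (Yc (B.comp hb k) a * fo B hb (B.V hb k) a - fo B hb (B.V hb k) a * Yc (B.comp hb k) a)⟩

/-- The second order expansion of the generators. -/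
noncomputable def xN (k : Fin n) (a : Par n) : N2 Mat :=
  ⟨(x0 B hb k a).a, (x0 B hb k a).b + a.2.2.2 k⟩

/-- The homomorphism given by `x0`. -/
noncomputable def φ0 (a : Par n) : FreeGroup (Fin n) →* N2 Mat :=
  FreeGroup.lift fun k => x0 B hb k a

theorem φ0_a (v : FreeGroup (Fin n)) (a : Par n) : (φ0 B hb a v).a = fo B hb v a :=
  lift_a _ _

theorem φN_eq (v : FreeGroup (Fin n)) (a : Par n) :
    FreeGroup.lift (fun k => xN B hb k a) v =
      ⟨fo B hb v a, (φ0 B hb a v).b + chi a.2.2.2 v⟩ := by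
  have h := lift_shift (fun k => x0 B hb k a) a.2.2.2 v
  rw [← φ0_a]
  exact h

theorem x0_rel (a : Par n) (k : Fin n) (h : ∀ c, B.s k ≠ base c) :
    φ0 B hb a (B.u k) * φ0 B hb a (FreeGroup.of (B.s k)) * (φ0 B hb a (B.u k))⁻¹ =
      φ0 B hb a (FreeGroup.of k) := by
  have h1 : ∀ j, φ0 B hb a (FreeGroup.of j) = x0 B hb j a := fun j => by simp [φ0]
  rw [h1, h1, N2.conj_eq, φ0_a]
  have h2 := B.comp_s hb k
  have h3 := B.V_s hb h
  ext : 1
  · simp only [x0]; rw [h2]
  · simp only [x0]
    rw [h2, h3]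
    have h4 : fo B hb (B.V hb k * B.u k) a = fo B hb (B.V hb k) a + fo B hb (B.u k) a := by
      simp [fo]
    rw [h4]
    noncomm_ring

/-- The homomorphism from the link group to the additive group of matrices. -/
theorem fo_longitude {μ : ℤ} (hμ : B.HasTripleLinking base μ) (c : Fin 3) (a : Par n) :
    fo B hb (B.longitude (base c)) a = 0 := by
  have hrel : ∀ w ∈ B.linkRels,
      FreeGroup.lift (fun k => Multiplicative.ofAdd (Yc (B.comp hb k) a)) w = 1 := by
    rintro w ⟨k, rfl⟩
    simp only [map_mul, map_inv, FreeGroup.lift_apply_of, B.comp_s hb k]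
    exact commutatorElement_eq_one_iff_mul_comm.2 (mul_comm _ _)
  set θ : B.LinkGroup →* Multiplicative Mat := PresentedGroup.toGroup hrel with hθ
  have hcls : ∀ w, θ (B.cls w) =
      FreeGroup.lift (fun k => Multiplicative.ofAdd (Yc (B.comp hb k) a)) w := fun w => rfl
  have h1 := hμ c
  have h2 : ⁅commutator B.LinkGroup, (⊤ : Subgroup B.LinkGroup)⁆ ≤ commutator B.LinkGroup :=
    Subgroup.commutator_mono le_top le_rfl
  have h3 := Abelianization.commutator_subset_ker θ (h2 h1)
  rw [MonoidHom.mem_ker, map_mul, map_zpow, map_commutatorElement] at h3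
  have h4 : ⁅θ (B.cls (FreeGroup.of (base (c + 1)))), θ (B.cls (FreeGroup.of (base (c + 2))))⁆ =
      1 := commutatorElement_eq_one_iff_mul_comm.2 (mul_comm _ _)
  rw [h4, one_zpow, mul_one, hcls] at h3
  exact congrArg Multiplicative.toAdd h3

/-- The second order coefficient of the longitudes. -/
theorem φ0_longitude {μ : ℤ} (hμ : B.HasTripleLinking base μ) (c : Fin 3) (a : Par n) :
    φ0 B hb a (B.longitude (base c)) =
      ⟨0, μ • (Yc (c + 1) a * Yc (c + 2) a - Yc (c + 2) a * Yc (c + 1) a)⟩ := by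
  have hall : ∀ k, φ0 B hb a (B.u k) * φ0 B hb a (FreeGroup.of (B.s k)) *
      (φ0 B hb a (B.u k))⁻¹ = φ0 B hb a (FreeGroup.of k) := by
    intro k
    by_cases h : ∀ c, B.s k ≠ base c
    · exact x0_rel B hb a k h
    · push Not at h
      obtain ⟨d, hd⟩ := h
      refine B.close_rel hb _ (x0_rel B hb a) hd ?_
      exact N2.central (by rw [φ0_a, fo_longitude B hb hμ]) _
  have hrel : ∀ w ∈ B.linkRels, (φ0 B hb a) w = 1 := by
    rintro w ⟨k, rfl⟩
    rw [map_mul, map_mul, map_mul, map_inv, map_inv, hall k, mul_inv_cancel]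
  set θ : B.LinkGroup →* N2 Mat := PresentedGroup.toGroup (f := fun k => x0 B hb k a) hrel with hθ
  have hcls : ∀ w, θ (B.cls w) = φ0 B hb a w := fun w => rfl
  have h1 := N2.comm_two _ (map_comm_two θ (hμ c))
  rw [map_mul, map_zpow, map_commutatorElement, hcls, hcls, hcls, N2.comm_eq, N2.zpow_b] at h1
  have h2 : ∀ d, (φ0 B hb a (FreeGroup.of (base d))).a = Yc d a := by
    intro d
    rw [φ0_a, fo, chi_of, B.comp_base hb]
  rw [h2, h2] at h1
  rw [mul_eq_one_iff_eq_inv] at h1
  rw [h1]
  ext : 1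
  · simp
  · simp only [N2.inv_b]; simp [neg_smul]

end system

end Pool.Agent.H42.ML
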